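import Mathlib

section

/-!
Tree decompositions with bags of small independence number: basic definitions, gluing, and the
recursive construction from separators.
-/

set_option autoImplicit false
set_option linter.unusedSectionVars false

namespace Pool.Agent.MP5f0bce

open Finset Classical

variable {V : Type} [Fintype V]

/-- the independence number of the set `X` is at most `k` -/
def ILE (G : SimpleGraph V) (X : Finset V) (k : ℕ) : Prop :=
  ∀ S : Finset V, S ⊆ X → G.IsIndepSet (S : Set V) → S.card ≤ k

theorem ILE.mono {G : SimpleGraph V} {X Y : Finset V} {k : ℕ} (h : X ⊆ Y) (hY : ILE G Y k) :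
    ILE G X k := fun S hS hi => hY S (hS.trans h) hi

theorem ILE.le {G : SimpleGraph V} {X : Finset V} {k l : ℕ} (h : k ≤ l) (hX : ILE G X k) :
    ILE G X l := fun S hS hi => (hX S hS hi).trans h

theorem indep_subset {G : SimpleGraph V} {S T : Finset V} (h : S ⊆ T)
    (hT : G.IsIndepSet (T : Set V)) : G.IsIndepSet (S : Set V) :=
  hT.mono (by exact_mod_cast h)

theorem ILE.union {G : SimpleGraph V} {X Y : Finset V} {k l : ℕ} (hX : ILE G X k)
    (hY : ILE G Y l) : ILE G (X ∪ Y) (k + l) := by
  intro S hS hi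
  have h1 : S = (S ∩ X) ∪ (S ∩ Y) := by
    rw [← Finset.inter_union_distrib_left]
    exact (Finset.inter_eq_left.mpr hS).symm
  have h2 : S.card ≤ (S ∩ X).card + (S ∩ Y).card := by
    conv_lhs => rw [h1]
    exact Finset.card_union_le _ _
  have h3 := hX (S ∩ X) Finset.inter_subset_right (indep_subset Finset.inter_subset_left hi)
  have h4 := hY (S ∩ Y) Finset.inter_subset_right (indep_subset Finset.inter_subset_left hi)
  omega

theorem ILE_empty {G : SimpleGraph V} (k : ℕ) : ILE G ∅ k := by
  intro S hS _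
  rw [Finset.subset_empty] at hS
  simp [hS]

theorem ILE_card {G : SimpleGraph V} (X : Finset V) : ILE G X X.card := fun _ hS _ =>
  Finset.card_le_card hS

theorem ILE.biUnion {G : SimpleGraph V} {ι : Type} (s : Finset ι) (f : ι → Finset V) (k : ℕ)
    (h : ∀ i ∈ s, ILE G (f i) k) : ILE G (s.biUnion f) (s.card * k) := by
  induction s using Finset.induction_on with
  | empty => simpa using ILE_empty 0
  | insert a s ha ih =>
    rw [Finset.biUnion_insert, Finset.card_insert_of_notMem ha]
    have h1 := (h a (Finset.mem_insert_self _ _)).union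
      (ih (fun i hi => h i (Finset.mem_insert_of_mem hi)))
    refine h1.le ?_
    ring_nf
    omega

/-- reachability outside `X` -/
def Conn (G : SimpleGraph V) (X : Finset V) (u v : V) : Prop :=
  u ∉ X ∧ Relation.ReflTransGen (fun a b => G.Adj a b ∧ b ∉ X) u v

section conn
variable {G : SimpleGraph V} {X Y : Finset V} {u v w : V}

theorem Conn.refl (h : u ∉ X) : Conn G X u u := ⟨h, Relation.ReflTransGen.refl⟩

theorem Conn.not_mem_left (h : Conn G X u v) : u ∉ X := h.1

theorem Conn.not_mem_right (h : Conn G X u v) : v ∉ X := by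
  obtain ⟨h1, h2⟩ := h
  cases h2 with
  | refl => exact h1
  | tail _ h => exact h.2

theorem Conn.trans (h : Conn G X u v) (h' : Conn G X v w) : Conn G X u w :=
  ⟨h.1, h.2.trans h'.2⟩

theorem Conn.step (h : Conn G X u v) (h' : G.Adj v w) (hw : w ∉ X) : Conn G X u w :=
  ⟨h.1, h.2.tail ⟨h', hw⟩⟩

theorem Conn.of_adj (hu : u ∉ X) (h' : G.Adj u v) (hw : v ∉ X) : Conn G X u v :=
  (Conn.refl hu).step h' hw

theorem Conn.symm (h : Conn G X u v) : Conn G X v u := by
  obtain ⟨h1, h2⟩ := h
  induction h2 with
  | refl => exact Conn.refl h1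
  | tail h3 h4 ih => exact (Conn.of_adj h4.2 h4.1.symm (Conn.not_mem_left ih)).trans ih

theorem Conn.mono (hXY : X ⊆ Y) (h : Conn G Y u v) : Conn G X u v := by
  refine ⟨fun hu => h.1 (hXY hu), ?_⟩
  exact Relation.ReflTransGen.mono (fun a b hab => ⟨hab.1, fun hb => hab.2 (hXY hb)⟩) _ _ h.2

end conn

/-- the component of `v` outside `X` -/
noncomputable def comp (G : SimpleGraph V) (X : Finset V) (v : V) : Finset V :=
  Finset.univ.filter (Conn G X v)

theorem mem_comp {G : SimpleGraph V} {X : Finset V} {v w : V} :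
    w ∈ comp G X v ↔ Conn G X v w := by simp [comp]

/-- `G[U]` has a tree decomposition with all bags of independence number at most `K` and one bag
containing `W` -/
def HasTD (G : SimpleGraph V) (K : ℕ) (U W : Finset V) : Prop :=
  ∃ (ι : Type) (_ : Fintype ι) (T : SimpleGraph ι) (B : ι → Finset V) (r : ι),
    T.IsTree ∧ W ⊆ B r ∧ (∀ t, B t ⊆ U) ∧ (∀ v ∈ U, ∃ t, v ∈ B t) ∧
    (∀ u v, u ∈ U → v ∈ U → G.Adj u v → ∃ t, u ∈ B t ∧ v ∈ B t) ∧
    (∀ v s t, v ∈ B s → v ∈ B t → ∃ p : T.Walk s t, ∀ x ∈ p.support, v ∈ B x) ∧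
    (∀ t, ILE G (B t) K)

theorem HasTD.mono {G : SimpleGraph V} {K : ℕ} {U W W' : Finset V} (h : W' ⊆ W)
    (hW : HasTD G K U W) : HasTD G K U W' := by
  obtain ⟨ι, i1, T, B, r, h1, h2, h3⟩ := hW
  exact ⟨ι, i1, T, B, r, h1, h.trans h2, h3⟩

theorem HasTD.single {G : SimpleGraph V} {K : ℕ} {U : Finset V} (h : ILE G U K) :
    HasTD G K U U := by
  refine ⟨Unit, inferInstance, ⊥, fun _ => U, (), SimpleGraph.IsTree.of_subsingleton,
    le_rfl, fun _ => le_rfl, fun v hv => ⟨(), hv⟩, fun u v hu hv _ => ⟨(), hu, hv⟩, ?_, fun _ => h⟩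
  intro v s t hs _
  exact ⟨SimpleGraph.Walk.nil, fun x _ => hs⟩

/-- gluing two trees along an edge -/
theorem isTree_glue {ι₁ ι₂ : Type} [Fintype ι₁] [Fintype ι₂] (T₁ : SimpleGraph ι₁)
    (T₂ : SimpleGraph ι₂) (h₁ : T₁.IsTree) (h₂ : T₂.IsTree) (r₁ : ι₁) (r₂ : ι₂) :
    ((T₁.sum T₂) ⊔ SimpleGraph.edge (Sum.inl r₁) (Sum.inr r₂)).IsTree := by
  rw [SimpleGraph.isTree_iff_connected_and_card]
  constructor
  · have hne : Nonempty (ι₁ ⊕ ι₂) := ⟨Sum.inl r₁⟩
    have hl : ∀ a b : ι₁, ((T₁.sum T₂) ⊔
        SimpleGraph.edge (Sum.inl r₁) (Sum.inr r₂)).Reachable (Sum.inl a) (Sum.inl b) := by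
      intro a b
      have h := h₁.connected.preconnected a b
      have h' := h.map (SimpleGraph.Embedding.sumInl (G := T₁) (H := T₂)).toHom
      exact SimpleGraph.Reachable.mono le_sup_left h'
    have hr : ∀ a b : ι₂, ((T₁.sum T₂) ⊔
        SimpleGraph.edge (Sum.inl r₁) (Sum.inr r₂)).Reachable (Sum.inr a) (Sum.inr b) := by
      intro a b
      have h := h₂.connected.preconnected a b
      have h' := h.map (SimpleGraph.Embedding.sumInr (G := T₁) (H := T₂)).toHom
      exact SimpleGraph.Reachable.mono le_sup_left h'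
    have he : ((T₁.sum T₂) ⊔
        SimpleGraph.edge (Sum.inl r₁) (Sum.inr r₂)).Reachable (Sum.inl r₁) (Sum.inr r₂) := by
      apply SimpleGraph.Adj.reachable
      simp [SimpleGraph.edge_adj]
    refine SimpleGraph.Connected.mk (fun a b => ?_)
    rcases a with a | a <;> rcases b with b | b
    · exact hl a b
    · exact ((hl a r₁).trans he).trans (hr r₂ b)
    · exact ((hr a r₂).trans he.symm).trans (hl r₁ b)
    · exact hr a b
  · have hn : ¬ (T₁.sum T₂).Adj (Sum.inl r₁) (Sum.inr r₂) := by simp
    have hne : (Sum.inl r₁ : ι₁ ⊕ ι₂) ≠ Sum.inr r₂ := by simp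
    have h3 := SimpleGraph.card_edgeFinset_sup_edge (G := T₁.sum T₂) hn hne
    have c1 := (SimpleGraph.isTree_iff_connected_and_card.mp h₁).2
    have c2 := (SimpleGraph.isTree_iff_connected_and_card.mp h₂).2
    have c3 : Nat.card (T₁.sum T₂).edgeSet = Nat.card T₁.edgeSet + Nat.card T₂.edgeSet := by
      rw [Nat.card_congr SimpleGraph.edgeSetSumEquiv, Nat.card_sum]
    have c4 : Nat.card ((T₁.sum T₂) ⊔ SimpleGraph.edge (Sum.inl r₁) (Sum.inr r₂)).edgeSet
        = Nat.card (T₁.sum T₂).edgeSet + 1 := by
      rw [Nat.card_eq_fintype_card, Nat.card_eq_fintype_card, ← SimpleGraph.edgeFinset_card,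
        ← SimpleGraph.edgeFinset_card]
      convert h3
    rw [c4, c3, Nat.card_sum]
    omega

theorem walk_push {ι κ : Type} {T : SimpleGraph ι} {T' : SimpleGraph κ} (f : T →g T')
    (B : ι → Finset V) (B' : κ → Finset V) (hB : ∀ i, B' (f i) = B i) {v : V} {s t : ι}
    {s' t' : κ} (hs' : f s = s') (ht' : f t = t') (p : T.Walk s t)
    (hp : ∀ x ∈ p.support, v ∈ B x) : ∃ q : T'.Walk s' t', ∀ x ∈ q.support, v ∈ B' x := by
  subst hs' ht'
  refine ⟨p.map f, fun x hx => ?_⟩
  rw [SimpleGraph.Walk.support_map, List.mem_map] at hx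
  obtain ⟨y, hy, rfl⟩ := hx
  rw [hB]
  exact hp y hy

theorem HasTD.glue {G : SimpleGraph V} {K : ℕ} {U₁ U₂ W₁ W₂ : Finset V}
    (h₁ : HasTD G K U₁ W₁) (h₂ : HasTD G K U₂ W₂) (h12 : U₁ ∩ U₂ ⊆ W₁) (h12' : U₁ ∩ U₂ ⊆ W₂)
    (he : ∀ u v, u ∈ U₁ → v ∈ U₂ → G.Adj u v → u ∈ U₂ ∨ v ∈ U₁) :
    HasTD G K (U₁ ∪ U₂) W₁ := by
  obtain ⟨ι₁, i1, T₁, B₁, r₁, a1, a2, a3, a4, a5, a6, a7⟩ := h₁
  obtain ⟨ι₂, i2, T₂, B₂, r₂, b1, b2, b3, b4, b5, b6, b7⟩ := h₂
  refine ⟨ι₁ ⊕ ι₂, inferInstance, (T₁.sum T₂) ⊔ SimpleGraph.edge (Sum.inl r₁) (Sum.inr r₂),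
    Sum.elim B₁ B₂, Sum.inl r₁, isTree_glue T₁ T₂ a1 b1 r₁ r₂, a2, ?_, ?_, ?_, ?_, ?_⟩
  · rintro (t | t)
    · exact (a3 t).trans Finset.subset_union_left
    · exact (b3 t).trans Finset.subset_union_right
  · intro v hv
    rcases Finset.mem_union.mp hv with hv | hv
    · obtain ⟨t, ht⟩ := a4 v hv
      exact ⟨Sum.inl t, ht⟩
    · obtain ⟨t, ht⟩ := b4 v hv
      exact ⟨Sum.inr t, ht⟩
  · intro u v hu hv huv
    have key1 : u ∈ U₁ → v ∈ U₁ → ∃ t : ι₁ ⊕ ι₂, u ∈ Sum.elim B₁ B₂ t ∧ v ∈ Sum.elim B₁ B₂ t := by
      intro hu hv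
      obtain ⟨t, ht⟩ := a5 u v hu hv huv
      exact ⟨Sum.inl t, ht⟩
    have key2 : u ∈ U₂ → v ∈ U₂ → ∃ t : ι₁ ⊕ ι₂, u ∈ Sum.elim B₁ B₂ t ∧ v ∈ Sum.elim B₁ B₂ t := by
      intro hu hv
      obtain ⟨t, ht⟩ := b5 u v hu hv huv
      exact ⟨Sum.inr t, ht⟩
    rcases Finset.mem_union.mp hu with hu | hu <;> rcases Finset.mem_union.mp hv with hv | hv
    · exact key1 hu hv
    · rcases he u v hu hv huv with h | h
      · exact key2 h hv
      · exact key1 hu h
    · rcases he v u hv hu huv.symm with h | h
      · exact key2 hu h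
      · exact key1 h hv
    · exact key2 hu hv
  · have hom1 : ∀ {s t : ι₁} (v : V), v ∈ B₁ s → v ∈ B₁ t →
        ∃ p : ((T₁.sum T₂) ⊔ SimpleGraph.edge (Sum.inl r₁) (Sum.inr r₂)).Walk
          (Sum.inl s) (Sum.inl t), ∀ x ∈ p.support, v ∈ Sum.elim B₁ B₂ x := by
      intro s t v hs ht
      obtain ⟨p, hp⟩ := a6 v s t hs ht
      exact walk_push ((SimpleGraph.Hom.ofLE le_sup_left).comp
        (SimpleGraph.Embedding.sumInl (G := T₁) (H := T₂)).toHom) B₁ (Sum.elim B₁ B₂)
        (fun i => rfl) rfl rfl p hp
    have hom2 : ∀ {s t : ι₂} (v : V), v ∈ B₂ s → v ∈ B₂ t →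
        ∃ p : ((T₁.sum T₂) ⊔ SimpleGraph.edge (Sum.inl r₁) (Sum.inr r₂)).Walk
          (Sum.inr s) (Sum.inr t), ∀ x ∈ p.support, v ∈ Sum.elim B₁ B₂ x := by
      intro s t v hs ht
      obtain ⟨p, hp⟩ := b6 v s t hs ht
      exact walk_push ((SimpleGraph.Hom.ofLE le_sup_left).comp
        (SimpleGraph.Embedding.sumInr (G := T₁) (H := T₂)).toHom) B₂ (Sum.elim B₁ B₂)
        (fun i => rfl) rfl rfl p hp
    have hadj : ((T₁.sum T₂) ⊔ SimpleGraph.edge (Sum.inl r₁) (Sum.inr r₂)).Adj
        (Sum.inl r₁) (Sum.inr r₂) := by simp [SimpleGraph.edge_adj]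
    have hom12 : ∀ {s : ι₁} {t : ι₂} (v : V), v ∈ B₁ s → v ∈ B₂ t →
        ∃ p : ((T₁.sum T₂) ⊔ SimpleGraph.edge (Sum.inl r₁) (Sum.inr r₂)).Walk
          (Sum.inl s) (Sum.inr t), ∀ x ∈ p.support, v ∈ Sum.elim B₁ B₂ x := by
      intro s t v hs ht
      have hv : v ∈ U₁ ∩ U₂ := Finset.mem_inter.mpr ⟨a3 s hs, b3 t ht⟩
      obtain ⟨p, hp⟩ := hom1 v hs (a2 (h12 hv))
      obtain ⟨q, hq⟩ := hom2 v (b2 (h12' hv)) ht
      refine ⟨p.append (SimpleGraph.Walk.cons hadj q), ?_⟩
      intro x hx
      rw [SimpleGraph.Walk.mem_support_append_iff] at hx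
      rcases hx with hx | hx
      · exact hp x hx
      · rw [SimpleGraph.Walk.support_cons, List.mem_cons] at hx
        rcases hx with rfl | hx
        · exact a2 (h12 hv)
        · exact hq x hx
    intro v s t hs ht
    rcases s with s | s <;> rcases t with t | t
    · exact hom1 v hs ht
    · exact hom12 v hs ht
    · obtain ⟨p, hp⟩ := hom12 v ht hs
      refine ⟨p.reverse, fun x hx => hp x ?_⟩
      simpa using hx
    · exact hom2 v hs ht
  · rintro (t | t)
    · exact a7 t
    · exact b7 t

/-- the recursive construction of tree decompositions from balanced separators -/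
theorem hasTD_of_separators (G : SimpleGraph V) (k : ℕ)
    (hsep : ∀ W : Finset V, ILE G W (3 * k + 1) → ∃ X : Finset V, ILE G X k ∧
      ∀ v, v ∉ X → ILE G (W ∩ comp G X v) (2 * k)) :
    ∀ N : ℕ, ∀ U W : Finset V, W ⊆ U → ILE G W (3 * k + 1) → U.card + (U \ W).card ≤ N →
      HasTD G (4 * k + 1) U W := by
  intro N
  induction N using Nat.strong_induction_on with
  | _ N IH =>
  intro U W hWU hW hN
  by_cases hW3 : ILE G W (3 * k)
  · by_cases hUW : U = W
    · subst hUW
      exact HasTD.single (hW.le (by omega))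
    · obtain ⟨v, hvU, hvW⟩ : ∃ v ∈ U, v ∉ W := by
        by_contra hcon
        push Not at hcon
        exact hUW (Finset.Subset.antisymm hcon hWU)
      have hlt : (U \ insert v W).card < (U \ W).card := by
        apply Finset.card_lt_card
        rw [Finset.ssubset_iff_of_subset]
        · exact ⟨v, Finset.mem_sdiff.mpr ⟨hvU, hvW⟩, by simp⟩
        · exact Finset.sdiff_subset_sdiff le_rfl (Finset.subset_insert _ _)
      have hI : ILE G (insert v W) (3 * k + 1) := by
        have h1 : ILE G {v} 1 := by
          have := ILE_card (G := G) {v}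
          simpa using this
        have h2 := h1.union hW3
        rw [Finset.insert_eq]
        exact h2.le (by omega)
      exact (IH (U.card + (U \ insert v W).card) (by omega) U (insert v W)
        (Finset.insert_subset hvU hWU) hI le_rfl).mono (Finset.subset_insert _ _)
  · obtain ⟨X, hX, hXc⟩ := hsep W hW
    -- the root bag
    set XU := X ∩ U with hXU
    have hXUI : ILE G XU k := hX.mono Finset.inter_subset_left
    set R := W ∪ XU with hR
    have hRI : ILE G R (4 * k + 1) := (hW.union hXUI).le (by omega)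
    have hRU : R ⊆ U := Finset.union_subset hWU Finset.inter_subset_right
    -- pieces
    have hpiece : ∀ v, v ∈ U → v ∉ X →
        HasTD G (4 * k + 1) ((comp G X v ∩ U) ∪ XU) ((W ∩ comp G X v) ∪ XU) := by
      intro v hvU hvX
      have hWc : ILE G ((W ∩ comp G X v) ∪ XU) (3 * k) := ((hXc v hvX).union hXUI).le (by omega)
      have hsubU : (comp G X v ∩ U) ∪ XU ⊆ U :=
        Finset.union_subset Finset.inter_subset_right Finset.inter_subset_right
      have hne : (comp G X v ∩ U) ∪ XU ≠ U := by
        intro hEq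
        apply hW3
        refine hWc.mono ?_
        intro w hw
        have hwU : w ∈ (comp G X v ∩ U) ∪ XU := by rw [hEq]; exact hWU hw
        rcases Finset.mem_union.mp hwU with h | h
        · exact Finset.mem_union_left _ (Finset.mem_inter.mpr ⟨hw, (Finset.mem_inter.mp h).1⟩)
        · exact Finset.mem_union_right _ h
      have hcard : ((comp G X v ∩ U) ∪ XU).card < U.card :=
        Finset.card_lt_card (lt_of_le_of_ne hsubU hne)
      have hWsub : (W ∩ comp G X v) ∪ XU ⊆ (comp G X v ∩ U) ∪ XU := by
        apply Finset.union_subset_union_left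
        intro w hw
        rw [Finset.mem_inter] at hw ⊢
        exact ⟨hw.2, hWU hw.1⟩
      have hle : (((comp G X v ∩ U) ∪ XU) \ ((W ∩ comp G X v) ∪ XU)).card ≤ (U \ W).card := by
        apply Finset.card_le_card
        intro w hw
        rw [Finset.mem_sdiff] at hw ⊢
        refine ⟨hsubU hw.1, fun hwW => hw.2 ?_⟩
        rcases Finset.mem_union.mp hw.1 with h | h
        · exact Finset.mem_union_left _ (Finset.mem_inter.mpr ⟨hwW, (Finset.mem_inter.mp h).1⟩)
        · exact Finset.mem_union_right _ h
      exact IH _ (by omega) _ _ hWsub (hWc.le (by omega)) le_rfl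
    -- glue them all
    have hglue : ∀ M : ℕ, ∀ Y : Finset V, Y ⊆ U → (∀ v ∈ Y, v ∉ X) →
        (∀ v ∈ Y, ∀ w ∈ U, Conn G X v w → w ∈ Y) → HasTD G (4 * k + 1) (R ∪ Y) R →
        (U \ (X ∪ Y)).card ≤ M → HasTD G (4 * k + 1) U R := by
      intro M
      induction M with
      | zero =>
        intro Y hYU hYX hYc hY hM
        have h0 : U \ (X ∪ Y) = ∅ := by
          rw [← Finset.card_eq_zero]; omega
        have : R ∪ Y = U := by
          apply Finset.Subset.antisymm (Finset.union_subset hRU hYU)
          intro u hu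
          have : u ∈ X ∪ Y := by
            by_contra hcon
            have : u ∈ U \ (X ∪ Y) := Finset.mem_sdiff.mpr ⟨hu, hcon⟩
            rw [h0] at this
            exact absurd this (Finset.notMem_empty _)
          rcases Finset.mem_union.mp this with h | h
          · exact Finset.mem_union_left _ (Finset.mem_union_right _ (Finset.mem_inter.mpr ⟨h, hu⟩))
          · exact Finset.mem_union_right _ h
        rwa [this] at hY
      | succ M ihM =>
        intro Y hYU hYX hYc hY hM
        by_cases hex : ∃ v ∈ U, v ∉ X ∧ v ∉ Y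
        · obtain ⟨v, hvU, hvX, hvY⟩ := hex
          set C := comp G X v ∩ U with hC
          have hvC : v ∈ C := Finset.mem_inter.mpr ⟨mem_comp.mpr (Conn.refl hvX), hvU⟩
          have hCY : ∀ w ∈ C, w ∉ Y := by
            intro w hw hwY
            have h1 := (mem_comp.mp (Finset.mem_inter.mp hw).1)
            exact hvY (hYc w hwY v hvU h1.symm)
          have hCX : ∀ w ∈ C, w ∉ X := by
            intro w hw
            exact (mem_comp.mp (Finset.mem_inter.mp hw).1).not_mem_right
          have hg := hY.glue (hpiece v hvU hvX) ?_ ?_ ?_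
          · have heq : (R ∪ Y) ∪ (C ∪ XU) = R ∪ (Y ∪ C) := by
              have : XU ⊆ R := Finset.subset_union_right
              ext x
              simp only [Finset.mem_union]
              constructor
              · rintro ((h | h) | (h | h))
                · exact Or.inl h
                · exact Or.inr (Or.inl h)
                · exact Or.inr (Or.inr h)
                · exact Or.inl (this h)
              · rintro (h | (h | h))
                · exact Or.inl (Or.inl h)
                · exact Or.inl (Or.inr h)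
                · exact Or.inr (Or.inl h)
            rw [heq] at hg
            refine ihM (Y ∪ C) (Finset.union_subset hYU Finset.inter_subset_right) ?_ ?_ hg ?_
            · intro w hw
              rcases Finset.mem_union.mp hw with h | h
              · exact hYX w h
              · exact hCX w h
            · intro w hw z hz hwz
              rcases Finset.mem_union.mp hw with h | h
              · exact Finset.mem_union_left _ (hYc w h z hz hwz)
              · refine Finset.mem_union_right _ (Finset.mem_inter.mpr ⟨?_, hz⟩)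
                exact mem_comp.mpr ((mem_comp.mp (Finset.mem_inter.mp h).1).trans hwz)
            · have hlt : (U \ (X ∪ (Y ∪ C))).card < (U \ (X ∪ Y)).card := by
                apply Finset.card_lt_card
                rw [Finset.ssubset_iff_of_subset]
                · refine ⟨v, ?_, ?_⟩
                  · rw [Finset.mem_sdiff, Finset.mem_union]
                    exact ⟨hvU, by rintro (h | h); exacts [hvX h, hvY h]⟩
                  · rw [Finset.mem_sdiff]
                    rintro ⟨-, h⟩
                    exact h (Finset.mem_union_right _ (Finset.mem_union_right _ hvC))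
                · apply Finset.sdiff_subset_sdiff le_rfl
                  apply Finset.union_subset_union_right
                  exact Finset.subset_union_left
              omega
          · -- intersection inside R
            intro x hx
            obtain ⟨h1, h2⟩ := Finset.mem_inter.mp hx
            rcases Finset.mem_union.mp h1 with h | h
            · exact h
            · rcases Finset.mem_union.mp h2 with h' | h'
              · exact absurd h (hCY x h')
              · exact Finset.mem_union_right _ h'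
          · -- intersection inside the second root bag
            intro x hx
            obtain ⟨h1, h2⟩ := Finset.mem_inter.mp hx
            rcases Finset.mem_union.mp h2 with h' | h'
            · rcases Finset.mem_union.mp h1 with h | h
              · rcases Finset.mem_union.mp h with h | h
                · exact Finset.mem_union_left _ (Finset.mem_inter.mpr ⟨h,
                    (Finset.mem_inter.mp h').1⟩)
                · exact Finset.mem_union_right _ h
              · exact absurd h (hCY x h')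
            · exact Finset.mem_union_right _ h'
          · -- edges
            intro x y hx hy hxy
            rcases Finset.mem_union.mp hy with hyC | hyX
            · left
              have hxU : x ∈ U := (Finset.union_subset hRU hYU) hx
              by_cases hxX : x ∈ X
              · exact Finset.mem_union_right _ (Finset.mem_inter.mpr ⟨hxX, hxU⟩)
              · refine Finset.mem_union_left _ (Finset.mem_inter.mpr ⟨?_, hxU⟩)
                exact mem_comp.mpr ((mem_comp.mp (Finset.mem_inter.mp hyC).1).step hxy.symm hxX)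
            · right
              exact Finset.mem_union_left _ (Finset.mem_union_right _ hyX)
        · push Not at hex
          refine ihM Y hYU hYX hYc hY ?_
          have : U \ (X ∪ Y) = ∅ := by
            rw [Finset.eq_empty_iff_forall_notMem]
            intro x hx
            rw [Finset.mem_sdiff, Finset.mem_union] at hx
            push Not at hx
            exact hx.2.2 (hex x hx.1 hx.2.1)
          rw [this]; simp
    have hstart : HasTD G (4 * k + 1) (R ∪ ∅) R := by
      rw [Finset.union_empty]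
      exact HasTD.single hRI
    refine (hglue (U \ (X ∪ ∅)).card ∅ (Finset.empty_subset _) ?_ ?_ hstart le_rfl).mono
      Finset.subset_union_left
    · intro v hv; exact absurd hv (Finset.notMem_empty _)
    · intro v hv; exact absurd hv (Finset.notMem_empty _)

/-- transfer to trees on `Fin m` -/
theorem HasTD.toFin {G : SimpleGraph V} {K : ℕ} {W : Finset V} (h : HasTD G K Finset.univ W) :
    ∃ (m : ℕ) (T : SimpleGraph (Fin m)) (B : Fin m → Finset V),
        T.IsTree ∧
        (∀ v : V, ∃ t : Fin m, v ∈ B t) ∧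
        (∀ u v : V, G.Adj u v → ∃ t : Fin m, u ∈ B t ∧ v ∈ B t) ∧
        (∀ v : V, ∀ s t : Fin m, v ∈ B s → v ∈ B t →
          ∃ p : T.Walk s t, ∀ x ∈ p.support, v ∈ B x) ∧
        (∀ t : Fin m, ∀ S : Finset V, S ⊆ B t → G.IsIndepSet (S : Set V) → S.card ≤ K) := by
  obtain ⟨ι, i1, T, B, r, h1, -, -, h4, h5, h6, h7⟩ := h
  let e := Fintype.equivFin ι
  let f : T ≃g T.map e.toEmbedding := SimpleGraph.Iso.map e T
  have hf : ∀ x, f x = e x := fun x => rfl
  refine ⟨Fintype.card ι, T.map e.toEmbedding, fun i => B (e.symm i), ?_, ?_, ?_, ?_, ?_⟩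
  · exact (SimpleGraph.Iso.isTree_iff f).mp h1
  · intro v
    obtain ⟨t, ht⟩ := h4 v (Finset.mem_univ _)
    exact ⟨e t, by simpa using ht⟩
  · intro u v huv
    obtain ⟨t, ht⟩ := h5 u v (Finset.mem_univ _) (Finset.mem_univ _) huv
    exact ⟨e t, by simpa using ht⟩
  · intro v s t hs ht
    obtain ⟨p, hp⟩ := h6 v (e.symm s) (e.symm t) hs ht
    refine ⟨(p.map f.toHom).copy (by simp [hf]) (by simp [hf]), ?_⟩
    intro x hx
    simp only [SimpleGraph.Walk.support_copy, SimpleGraph.Walk.support_map, List.mem_map] at hx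
    obtain ⟨y, hy, rfl⟩ := hx
    have := hp y hy
    simpa [hf] using this
  · intro t S hS hi
    exact h7 _ S hS hi

end Pool.Agent.MP5f0bce
end

section

section

/-!
A finite minimax theorem.
-/

set_option autoImplicit false

namespace Pool.Agent.MP5f0bce

open Finset

theorem minimax {X P : Type} [Fintype X] [Fintype P] [Nonempty X] (A : X → P → ℝ) (δ : ℝ) :
    (∃ ν ∈ stdSimplex ℝ X, ∀ p, δ ≤ ∑ x, ν x * A x p) ∨
    (∃ μ ∈ stdSimplex ℝ P, ∀ x, ∑ p, μ p * A x p < δ) := by
  classical
  let L : (X → ℝ) →ₗ[ℝ] (P → ℝ) :=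
    { toFun := fun ν p => ∑ x, ν x * A x p
      map_add' := by
        intro a b; ext p
        simp only [Pi.add_apply, add_mul, Finset.sum_add_distrib]
      map_smul' := by
        intro r a; ext p
        simp only [Pi.smul_apply, smul_eq_mul, RingHom.id_apply, Finset.mul_sum, mul_assoc] }
  let K : Set (P → ℝ) := L '' stdSimplex ℝ X
  let B : Set (P → ℝ) := {y | ∀ p, δ ≤ y p}
  by_cases hdisj : Disjoint K B
  · right
    have hK1 : Convex ℝ K := (convex_stdSimplex ℝ X).linear_image L
    have hK2 : IsCompact K := (isCompact_stdSimplex ℝ X).image L.continuous_of_finiteDimensional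
    have hB1 : Convex ℝ B := by
      intro y hy z hz a b ha hb hab p
      have h1 := mul_le_mul_of_nonneg_left (hy p) ha
      have h2 := mul_le_mul_of_nonneg_left (hz p) hb
      have : δ = a * δ + b * δ := by rw [← add_mul, hab, one_mul]
      simp only [Pi.add_apply, Pi.smul_apply, smul_eq_mul]
      linarith
    have hB2 : IsClosed B := by
      have : B = ⋂ p, {y : P → ℝ | δ ≤ y p} := by ext y; simp [B]
      rw [this]
      exact isClosed_iInter fun p => isClosed_le continuous_const (continuous_apply p)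
    obtain ⟨f, u, v, h1, huv, h2⟩ := geometric_hahn_banach_compact_closed hK1 hK2 hB1 hB2 hdisj
    let c : P → ℝ := fun p => f (Pi.single p 1)
    have hf : ∀ y : P → ℝ, f y = ∑ p, y p * c p := by
      intro y
      have hy : y = ∑ p, y p • (Pi.single p (1 : ℝ) : P → ℝ) := by
        ext q
        simp [Finset.sum_apply, Pi.single_apply]
      conv_lhs => rw [hy]
      rw [map_sum]
      refine Finset.sum_congr rfl fun p _ => ?_
      rw [map_smul, smul_eq_mul]
    have hconst : (fun _ => δ : P → ℝ) ∈ B := fun p => le_rfl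
    have hc : ∀ p, 0 ≤ c p := by
      intro p
      by_contra hcp
      push Not at hcp
      set t : ℝ := (f (fun _ => δ) - v) / (- c p) with ht
      have ht0 : 0 ≤ t := div_nonneg (by linarith [h2 _ hconst]) (by linarith)
      have hmem : ((fun _ => δ : P → ℝ) + t • (Pi.single p (1 : ℝ) : P → ℝ)) ∈ B := by
        intro q
        simp only [Pi.add_apply, Pi.smul_apply, smul_eq_mul]
        have : (0 : ℝ) ≤ (Pi.single p (1 : ℝ) : P → ℝ) q := by
          rw [Pi.single_apply]; split_ifs <;> norm_num
        nlinarith [mul_nonneg ht0 this]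
      have h3 := h2 _ hmem
      rw [map_add, map_smul, smul_eq_mul] at h3
      have h4 : t * c p = -(f (fun _ => δ) - v) := by
        rw [ht, div_neg, neg_mul, div_mul_cancel₀ _ hcp.ne]
      change v < f (fun _ => δ) + t * c p at h3
      rw [h4] at h3
      linarith
    obtain ⟨x0⟩ := (inferInstance : Nonempty X)
    have hrow : ∀ x, (fun p => A x p) ∈ K := by
      intro x
      refine ⟨Pi.single x 1, single_mem_stdSimplex ℝ x, ?_⟩
      ext p
      change ∑ x', (Pi.single x (1 : ℝ) : X → ℝ) x' * A x' p = A x p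
      rw [Finset.sum_eq_single x]
      · simp
      · intro b _ hb
        simp [hb]
      · intro h; exact absurd (Finset.mem_univ _) h
    have hsum : 0 < ∑ p, c p := by
      rcases (Finset.sum_nonneg fun p _ => hc p).lt_or_eq with h | h
      · exact h
      · exfalso
        have hz : ∀ p, c p = 0 := by
          intro p
          exact (Finset.sum_eq_zero_iff_of_nonneg (fun p _ => hc p)).mp h.symm p
            (Finset.mem_univ _)
        have hf0 : ∀ y, f y = 0 := by
          intro y; rw [hf]; simp [hz]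
        have h3 := h1 _ (hrow x0)
        have h4 := h2 _ hconst
        rw [hf0] at h3 h4
        linarith
    refine ⟨fun p => c p / ∑ p, c p, ⟨fun p => div_nonneg (hc p) hsum.le, ?_⟩, ?_⟩
    · rw [← Finset.sum_div]
      exact div_self hsum.ne'
    · intro x
      have h3 := h1 _ (hrow x)
      have h4 := h2 _ hconst
      rw [hf] at h3 h4
      have h5 : ∑ p, c p / (∑ p, c p) * A x p = (∑ p, A x p * c p) / ∑ p, c p := by
        rw [Finset.sum_div]
        refine Finset.sum_congr rfl fun p _ => ?_
        ring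
      rw [h5, div_lt_iff₀ hsum]
      rw [← Finset.mul_sum] at h4
      linarith
  · left
    rw [Set.not_disjoint_iff] at hdisj
    obtain ⟨y, ⟨ν, hν, rfl⟩, hy⟩ := hdisj
    exact ⟨ν, hν, hy⟩

end Pool.Agent.MP5f0bce
end

section

/-!
Induced paths as lists.
-/

set_option autoImplicit false
set_option linter.unusedSectionVars false

namespace Pool.Agent.MP5f0bce

open Finset Classical

variable {V : Type} [Fintype V]

/-- the list is an induced path of `G` -/
def IndP (G : SimpleGraph V) : List V → Prop
  | [] => True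
  | [_] => True
  | a :: b :: l => G.Adj a b ∧ (∀ w ∈ l, ¬ G.Adj a w ∧ a ≠ w) ∧ IndP G (b :: l)

variable {G : SimpleGraph V}

theorem IndP.tail {a : V} {l : List V} (h : IndP G (a :: l)) : IndP G l := by
  cases l with
  | nil => trivial
  | cons b l => exact h.2.2

theorem IndP.suffix {l₁ l₂ : List V} (h : IndP G (l₁ ++ l₂)) : IndP G l₂ := by
  induction l₁ with
  | nil => exact h
  | cons a l ih => exact ih h.tail

theorem IndP.append {l₁ l₂ : List V} {x : V} (h₁ : IndP G (l₁ ++ [x])) (h₂ : IndP G (x :: l₂))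
    (h : ∀ a ∈ l₁, ∀ b ∈ l₂, ¬ G.Adj a b ∧ a ≠ b) : IndP G (l₁ ++ x :: l₂) := by
  induction l₁ with
  | nil => exact h₂
  | cons a l ih =>
    have ih' := ih h₁.tail (fun a' ha' => h a' (List.mem_cons_of_mem _ ha'))
    cases l with
    | nil =>
      refine ⟨h₁.1, fun w hw => h a (List.mem_cons_self) w hw, ih'⟩
    | cons b l =>
      refine ⟨h₁.1, ?_, ih'⟩
      intro w hw
      rcases List.mem_append.mp hw with hw | hw
      · exact h₁.2.1 w (List.mem_append.mpr (Or.inl hw))
      · rcases List.mem_cons.mp hw with rfl | hw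
        · exact h₁.2.1 w (List.mem_append.mpr (Or.inr (List.mem_singleton.mpr rfl)))
        · exact h a List.mem_cons_self w hw

/-- extending an induced path at its head, keeping a protected part `u :: lo` -/
theorem IndP.ext {u w : V} {lo : List V} : ∀ {l₁ : List V}, IndP G (l₁ ++ u :: lo) →
    (∃ y, (y ∈ l₁ ∨ y = u) ∧ G.Adj w y) → w ∉ l₁ → w ≠ u → w ∉ lo → (∀ z ∈ lo, ¬ G.Adj w z) →
    ∃ l', (∀ x ∈ l', x ∈ l₁) ∧ IndP G (w :: (l' ++ u :: lo)) := by
  intro l₁
  induction l₁ with
  | nil =>
    intro h hy _ hwu hwlo hlo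
    obtain ⟨y, hy, hwy⟩ := hy
    have hyu : y = u := by simpa using hy
    subst hyu
    exact ⟨[], by simp, hwy, fun z hz => ⟨hlo z hz, fun he => hwlo (he ▸ hz)⟩, h⟩
  | cons a l₂ ih =>
    intro h hy hw hwu hwlo hlo
    by_cases hex : ∃ y, (y ∈ l₂ ∨ y = u) ∧ G.Adj w y
    · obtain ⟨l', h1, h2⟩ := ih h.tail hex (fun h' => hw (List.mem_cons_of_mem _ h')) hwu hwlo hlo
      exact ⟨l', fun x hx => List.mem_cons_of_mem _ (h1 x hx), h2⟩
    · push Not at hex
      obtain ⟨y, hy, hwy⟩ := hy
      have hya : y = a := by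
        rcases hy with hy | hy
        · rcases List.mem_cons.mp hy with hy | hy
          · exact hy
          · exact absurd hwy (hex y (Or.inl hy))
        · exact absurd hwy (hex y (Or.inr hy))
      subst hya
      refine ⟨y :: l₂, fun x hx => hx, hwy, ?_, h⟩
      intro z hz
      rcases List.mem_append.mp hz with hz | hz
      · exact ⟨hex z (Or.inl hz), fun he => hw (he ▸ List.mem_cons_of_mem _ hz)⟩
      · rcases List.mem_cons.mp hz with rfl | hz
        · exact ⟨hex z (Or.inr rfl), hwu⟩
        · exact ⟨hlo z hz, fun he => hwlo (he ▸ hz)⟩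

/-- a connection outside `Z` between nonadjacent vertices contains an induced path -/
theorem exists_indP {Z : Finset V} {i j : V} (h : Conn G Z j i) (hij : i ≠ j) :
    ∃ q : List V, IndP G (i :: (q ++ [j])) ∧ ∀ x ∈ q, x ∉ Z := by
  have key : ∀ w, Relation.ReflTransGen (fun a b => G.Adj a b ∧ b ∉ Z) j w →
      ∃ l₁ : List V, IndP G (l₁ ++ [j]) ∧ (w ∈ l₁ ∨ w = j) ∧ ∀ x ∈ l₁, x ∉ Z := by
    intro w hw
    induction hw with
    | refl => exact ⟨[], trivial, Or.inr rfl, by simp⟩
    | tail h1 h2 ih =>
      rename_i b c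
      obtain ⟨l₁, a1, a2, a3⟩ := ih
      by_cases hc : c ∈ l₁ ∨ c = j
      · exact ⟨l₁, a1, hc, a3⟩
      · push Not at hc
        obtain ⟨l', b1, b2⟩ := IndP.ext (w := c) (lo := []) a1 ⟨b, a2, h2.1.symm⟩ hc.1 hc.2
          (by simp) (by simp)
        refine ⟨c :: l', b2, Or.inl List.mem_cons_self, ?_⟩
        intro x hx
        rcases List.mem_cons.mp hx with rfl | hx
        · exact h2.2
        · exact a3 x (b1 x hx)
  obtain ⟨l₁, a1, a2, a3⟩ := key i h.2
  have hi : i ∈ l₁ := a2.resolve_right hij
  obtain ⟨s, t, hst⟩ := List.append_of_mem hi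
  refine ⟨t, ?_, ?_⟩
  · have : l₁ ++ [j] = s ++ (i :: (t ++ [j])) := by rw [hst]; simp
    rw [this] at a1
    exact a1.suffix
  · intro x hx
    apply a3
    rw [hst]
    simp [hx]

theorem IndP.adj_iff : ∀ {l : List V}, IndP G l → ∀ i j : ℕ, (hi : i < l.length) →
    (hj : j < l.length) → i < j → ((G.Adj l[i] l[j] ↔ j = i + 1) ∧ l[i] ≠ l[j]) := by
  intro l
  induction l with
  | nil => intro _ i j hi; simp at hi
  | cons a l ih =>
    intro h i j hi hj hij
    cases i with
    | succ i =>
      cases j with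
      | zero => omega
      | succ j =>
        have := ih h.tail i j (by simpa using hi) (by simpa using hj) (by omega)
        simpa using this
    | zero =>
      cases j with
      | zero => omega
      | succ j =>
        cases l with
        | nil => simp at hj
        | cons b l =>
          cases j with
          | zero => simpa using ⟨h.1, h.1.ne⟩
          | succ j =>
            have hmem : (a :: b :: l)[j + 1 + 1] ∈ l := by
              simp
            have := h.2.1 _ hmem
            constructor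
            · simp only [List.getElem_cons_zero]
              constructor
              · intro h'; exact absurd h' this.1
              · intro h'; omega
            · exact this.2

theorem indP_length_lt {n : ℕ} (hG : ¬ (SimpleGraph.pathGraph n).IsIndContained G) {l : List V}
    (h : IndP G l) : l.length < n := by
  by_contra hlen
  push Not at hlen
  apply hG
  have hlt : ∀ i : Fin n, i.val < l.length := fun i => lt_of_lt_of_le i.isLt hlen
  refine ⟨⟨⟨fun i => l[i.val]'(hlt i), ?_⟩, ?_⟩⟩
  · intro i j hij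
    rcases lt_trichotomy i.val j.val with h' | h' | h'
    · exact absurd hij (IndP.adj_iff h i.val j.val (hlt i) (hlt j) h').2
    · exact Fin.ext h'
    · exact absurd hij.symm (IndP.adj_iff h j.val i.val (hlt j) (hlt i) h').2
  · intro i j
    change G.Adj (l[i.val]'(hlt i)) (l[j.val]'(hlt j)) ↔ _
    rw [SimpleGraph.pathGraph_adj]
    rcases lt_trichotomy i.val j.val with h' | h' | h'
    · rw [(IndP.adj_iff h i.val j.val (hlt i) (hlt j) h').1]
      omega
    · have : i = j := Fin.ext h'
      subst this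
      simp
    · rw [SimpleGraph.adj_comm, (IndP.adj_iff h j.val i.val (hlt j) (hlt i) h').1]
      omega

/-- two completely joined independent `n`-sets give an induced `K_{n,n}` -/
theorem no_biclique {n : ℕ}
    (hG : ¬ (completeBipartiteGraph (Fin n) (Fin n)).IsIndContained G) {S T : Finset V}
    (hS : S.card = n) (hT : T.card = n) (hSi : G.IsIndepSet (S : Set V))
    (hTi : G.IsIndepSet (T : Set V)) (h : ∀ s ∈ S, ∀ t ∈ T, G.Adj s t) : False := by
  apply hG
  let eS : Fin n ≃ S := (Fintype.equivFinOfCardEq (by simpa using hS)).symm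
  let eT : Fin n ≃ T := (Fintype.equivFinOfCardEq (by simpa using hT)).symm
  let f : Fin n ⊕ Fin n → V := Sum.elim (fun i => (eS i : V)) (fun i => (eT i : V))
  have hind : ∀ {A : Finset V}, G.IsIndepSet (A : Set V) → ∀ a ∈ A, ∀ b ∈ A, ¬ G.Adj a b := by
    intro A hA a ha b hb hab
    exact hA (by exact_mod_cast ha) (by exact_mod_cast hb) hab.ne hab
  refine ⟨⟨⟨f, ?_⟩, ?_⟩⟩
  · rintro (i | i) (j | j) hij
    · have : eS i = eS j := Subtype.ext hij
      rw [eS.injective this]
    · exact absurd hij (h _ (eS i).2 _ (eT j).2).ne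
    · exact absurd hij.symm (h _ (eS j).2 _ (eT i).2).ne
    · have : eT i = eT j := Subtype.ext hij
      rw [eT.injective this]
  · rintro (i | i) (j | j)
    · have := hind hSi _ (eS i).2 _ (eS j).2
      change G.Adj (eS i : V) (eS j : V) ↔ _
      simpa [completeBipartiteGraph] using this
    · have := h _ (eS i).2 _ (eT j).2
      change G.Adj (eS i : V) (eT j : V) ↔ _
      simpa [completeBipartiteGraph] using this
    · have := (h _ (eS j).2 _ (eT i).2).symm
      change G.Adj (eT i : V) (eS j : V) ↔ _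
      simpa [completeBipartiteGraph] using this
    · have := hind hTi _ (eT i).2 _ (eT j).2
      change G.Adj (eT i : V) (eT j : V) ↔ _
      simpa [completeBipartiteGraph] using this

end Pool.Agent.MP5f0bce
end

section

/-!
The haven defined by an unbalanceable set `W`, and the Gyarfas path argument: the set of vertices
dominated by the haven has large independence number.
-/

set_option autoImplicit false
set_option linter.unusedSectionVars false

namespace Pool.Agent.MP5f0bce

open Finset Classical

variable {V : Type} [Fintype V]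

/-- the big component outside `X` -/
noncomputable def beta (G : SimpleGraph V) (W : Finset V) (k : ℕ) (X : Finset V) : Finset V :=
  Finset.univ.filter (fun v => v ∉ X ∧ ¬ ILE G (W ∩ comp G X v) (2 * k))

section haven
variable {G : SimpleGraph V} {W : Finset V} {k : ℕ} {X Y : Finset V} {u v w : V}

theorem mem_beta : v ∈ beta G W k X ↔ v ∉ X ∧ ¬ ILE G (W ∩ comp G X v) (2 * k) := by
  simp [beta]

theorem comp_eq (h : Conn G X v w) : comp G X v = comp G X w := by
  ext z
  rw [mem_comp, mem_comp]
  exact ⟨fun h' => h.symm.trans h', fun h' => h.trans h'⟩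

theorem beta_closed (hv : v ∈ beta G W k X) (h : Conn G X v w) : w ∈ beta G W k X := by
  rw [mem_beta] at hv ⊢
  rw [← comp_eq h]
  exact ⟨h.not_mem_right, hv.2⟩

theorem beta_mono (hXY : X ⊆ Y) : beta G W k Y ⊆ beta G W k X := by
  intro v hv
  rw [mem_beta] at hv ⊢
  refine ⟨fun h => hv.1 (hXY h), fun h => hv.2 (h.mono ?_)⟩
  intro z hz
  rw [Finset.mem_inter, mem_comp] at hz ⊢
  exact ⟨hz.1, hz.2.mono hXY⟩

theorem beta_conn (hW : ILE G W (3 * k + 1)) (hu : u ∈ beta G W k X)
    (hv : v ∈ beta G W k X) : Conn G X u v := by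
  by_contra hcon
  rw [mem_beta] at hu hv
  obtain ⟨hu1, hu2⟩ := hu
  obtain ⟨hv1, hv2⟩ := hv
  unfold ILE at hu2 hv2
  push Not at hu2 hv2
  obtain ⟨S, hS, hSi, hSc⟩ := hu2
  obtain ⟨T, hT, hTi, hTc⟩ := hv2
  have hno : ∀ s ∈ S, ∀ t ∈ T, s ≠ t ∧ ¬ G.Adj s t := by
    intro s hs t ht
    have h1 := mem_comp.mp (Finset.mem_inter.mp (hS hs)).2
    have h2 := mem_comp.mp (Finset.mem_inter.mp (hT ht)).2
    constructor
    · rintro rfl
      exact hcon (h1.trans h2.symm)
    · intro hadj
      exact hcon ((h1.step hadj h2.not_mem_right).trans h2.symm)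
  have hdisj : Disjoint S T := by
    rw [Finset.disjoint_left]
    intro a ha hb
    exact (hno a ha a hb).1 rfl
  have hUi : G.IsIndepSet ((S ∪ T : Finset V) : Set V) := by
    intro a ha b hb hab
    rw [Finset.mem_coe, Finset.mem_union] at ha hb
    rcases ha with ha | ha <;> rcases hb with hb | hb
    · exact hSi (by exact_mod_cast ha) (by exact_mod_cast hb) hab
    · exact (hno a ha b hb).2
    · exact fun h => (hno b hb a ha).2 h.symm
    · exact hTi (by exact_mod_cast ha) (by exact_mod_cast hb) hab
  have hsub : S ∪ T ⊆ W := by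
    intro a ha
    rcases Finset.mem_union.mp ha with h | h
    · exact (Finset.mem_inter.mp (hS h)).1
    · exact (Finset.mem_inter.mp (hT h)).1
  have := hW (S ∪ T) hsub hUi
  rw [Finset.card_union_of_disjoint hdisj] at this
  omega

theorem beta_reach (hv : v ∈ beta G W k X) (h : Conn G X v w) :
    Relation.ReflTransGen (fun a b => G.Adj a b ∧ b ∈ beta G W k X) v w := by
  obtain ⟨h1, h2⟩ := h
  induction h2 with
  | refl => exact Relation.ReflTransGen.refl
  | tail h3 h4 ih =>
    refine ih.tail ⟨h4.1, ?_⟩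
    exact beta_closed hv ⟨h1, h3.tail h4⟩

end haven

/-- the vertices dominated by the haven up to order `s` -/
noncomputable def dom (G : SimpleGraph V) (W : Finset V) (k s : ℕ) : Finset V :=
  Finset.univ.filter (fun v => ∀ X : Finset V, ILE G X s →
    ∃ w ∈ beta G W k X, w = v ∨ G.Adj v w)

theorem mem_dom {G : SimpleGraph V} {W : Finset V} {k s : ℕ} {v : V} :
    v ∈ dom G W k s ↔ ∀ X : Finset V, ILE G X s → ∃ w ∈ beta G W k X, w = v ∨ G.Adj v w := by
  simp [dom]

theorem dom_conn {G : SimpleGraph V} {W : Finset V} {k s : ℕ} (hW : ILE G W (3 * k + 1))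
    {i j : V} (hi : i ∈ dom G W k s) (hj : j ∈ dom G W k s) {X : Finset V} (hX : ILE G X s)
    (hiX : i ∉ X) (hjX : j ∉ X) : Conn G X i j := by
  have key : ∀ {v : V}, v ∈ dom G W k s → v ∉ X → v ∈ beta G W k X := by
    intro v hv hvX
    obtain ⟨w, hw, hvw⟩ := mem_dom.mp hv X hX
    rcases hvw with rfl | hvw
    · exact hw
    · exact beta_closed hw (Conn.of_adj (mem_beta.mp hw).1 hvw.symm hvX)
  exact beta_conn hW (key hi hiX) (key hj hjX)

/-- Gyarfas path argument -/
theorem dom_large {G : SimpleGraph V} {W : Finset V} {k s d n : ℕ} (hW : ILE G W (3 * k + 1))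
    (hbeta : ∀ X : Finset V, ILE G X k → (beta G W k X).Nonempty)
    (hP : ∀ l : List V, IndP G l → l.length < n)
    (hd : ILE G (dom G W k s) d) (hk : d + n * s ≤ k) : False := by
  have state : ∀ j : ℕ, j ≤ n → ∃ (X : Finset V) (u : V) (lo : List V),
      ILE G X (d + j * s) ∧ dom G W k s ⊆ X ∧ IndP G (u :: lo) ∧ j ≤ lo.length ∧
      (∀ z ∈ lo, ∀ w ∈ beta G W k X, z ≠ w ∧ ¬ G.Adj z w) ∧ u ∉ dom G W k s ∧
      (u ∈ beta G W k X ∨ ∃ w ∈ beta G W k X, G.Adj u w) := by
    intro j
    induction j with
    | zero =>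
      intro _
      obtain ⟨u, hu⟩ := hbeta (dom G W k s) (hd.le (by omega))
      exact ⟨dom G W k s, u, [], by simpa using hd, le_rfl, trivial, by simp, by simp,
        (mem_beta.mp hu).1, Or.inl hu⟩
    | succ j ih =>
      intro hj
      obtain ⟨X, u, lo, a1, a2, a3, a4, a5, a6, a7⟩ := ih (by omega)
      have hjs : (j + 1) * s ≤ n * s := Nat.mul_le_mul_right s hj
      have hu' : ∃ Xu : Finset V, ILE G Xu s ∧ ∀ w ∈ beta G W k Xu, w ≠ u ∧ ¬ G.Adj u w := by
        by_contra hcon
        push Not at hcon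
        apply a6
        rw [mem_dom]
        intro Xu hXu
        obtain ⟨w, hw, h⟩ := hcon Xu hXu
        by_cases hwu : w = u
        · exact ⟨w, hw, Or.inl hwu⟩
        · exact ⟨w, hw, Or.inr (h hwu)⟩
      obtain ⟨Xu, b1, b2⟩ := hu'
      set X' := X ∪ Xu with hX'
      have hX'I : ILE G X' (d + (j + 1) * s) := (a1.union b1).le (by ring_nf; omega)
      have hX'k : ILE G X' k := hX'I.le (by omega)
      have hR'R : beta G W k X' ⊆ beta G W k X := beta_mono Finset.subset_union_left
      have hR'u : beta G W k X' ⊆ beta G W k Xu := beta_mono Finset.subset_union_right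
      obtain ⟨z, hz⟩ := hbeta X' hX'k
      -- a walk from `u` to `z` inside `beta X`
      have hwalk : Relation.ReflTransGen (fun a b => G.Adj a b ∧ b ∈ beta G W k X) u z := by
        rcases a7 with h | ⟨w, hw, huw⟩
        · exact beta_reach h (beta_conn hW h (hR'R hz))
        · exact Relation.ReflTransGen.head ⟨huw, hw⟩ (beta_reach hw (beta_conn hW hw (hR'R hz)))
      by_contra hgoal
      have hind : ∀ w, Relation.ReflTransGen (fun a b => G.Adj a b ∧ b ∈ beta G W k X) u w →
          ∃ l₁ : List V, IndP G (l₁ ++ u :: lo) ∧ (w ∈ l₁ ∨ w = u) ∧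
            ∀ y ∈ l₁, y ∈ beta G W k X ∧ ∀ r ∈ beta G W k X', y ≠ r ∧ ¬ G.Adj y r := by
        intro w hw
        induction hw with
        | refl => exact ⟨[], a3, Or.inr rfl, by simp⟩
        | tail h1 h2 ih =>
          rename_i b c
          obtain ⟨l₁, c1, c2, c3⟩ := ih
          by_cases hc : c ∈ l₁ ∨ c = u
          · exact ⟨l₁, c1, hc, c3⟩
          push Not at hc
          have hclo : c ∉ lo := fun h => (a5 c h c h2.2).1 rfl
          have hcad : ∀ z ∈ lo, ¬ G.Adj c z := fun z hz h => (a5 z hz c h2.2).2 h.symm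
          obtain ⟨l', d1, d2⟩ := IndP.ext c1 ⟨b, c2, h2.1.symm⟩ hc.1 hc.2 hclo hcad
          -- `c` is not in the new component
          have hcR' : c ∉ beta G W k X' := by
            intro hcR'
            rcases c2 with h | h
            · exact ((c3 b h).2 c hcR').2 h2.1
            · subst h
              exact (b2 c (hR'u hcR')).2 h2.1
          by_cases hcN : ∃ r ∈ beta G W k X', G.Adj c r
          · exfalso
            apply hgoal
            refine ⟨X', c, l' ++ u :: lo, hX'I, a2.trans Finset.subset_union_left, d2, ?_, ?_, ?_,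
              Or.inr hcN⟩
            · simp only [List.length_append, List.length_cons]
              omega
            · intro y hy w hw
              rcases List.mem_append.mp hy with hy | hy
              · exact (c3 y (d1 y hy)).2 w hw
              · rcases List.mem_cons.mp hy with rfl | hy
                · have := b2 w (hR'u hw)
                  exact ⟨this.1.symm, this.2⟩
                · exact a5 y hy w (hR'R hw)
            · intro hcd
              exact (mem_beta.mp h2.2).1 (a2 hcd)
          · push Not at hcN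
            refine ⟨c :: l', d2, Or.inl List.mem_cons_self, ?_⟩
            intro y hy
            rcases List.mem_cons.mp hy with rfl | hy
            · exact ⟨h2.2, fun r hr => ⟨fun he => hcR' (he ▸ hr), hcN r hr⟩⟩
            · exact c3 y (d1 y hy)
      obtain ⟨l₁, -, c2, c3⟩ := hind z hwalk
      rcases c2 with h | h
      · exact ((c3 z h).2 z hz).1 rfl
      · subst h
        exact (b2 z (hR'u hz)).1 rfl
  obtain ⟨X, u, lo, -, -, a3, a4, -⟩ := state n le_rfl
  have := hP _ a3
  simp only [List.length_cons] at this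
  omega

end Pool.Agent.MP5f0bce
end

section

/-!
Measures on the induced paths between two vertices that cannot be separated by a set of small
independence number, and their hub sets.
-/

set_option autoImplicit false
set_option linter.unusedSectionVars false

namespace Pool.Agent.MP5f0bce

open Finset Classical

variable {V : Type} [Fintype V] {G : SimpleGraph V}

theorem IndP.nodup : ∀ {l : List V}, IndP G l → l.Nodup := by
  intro l
  induction l with
  | nil => intro _; exact List.nodup_nil
  | cons a l ih =>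
    intro h
    rw [List.nodup_cons]
    refine ⟨?_, ih h.tail⟩
    cases l with
    | nil => simp
    | cons b l =>
      intro hmem
      rcases List.mem_cons.mp hmem with rfl | hm
      · exact h.1.ne rfl
      · exact (h.2.1 a hm).2 rfl

/-- vertex sets of interiors of induced paths from `i` to `j` -/
noncomputable def paths (G : SimpleGraph V) (i j : V) : Finset (Finset V) :=
  Finset.univ.filter (fun p => ∃ q : List V, IndP G (i :: (q ++ [j])) ∧ q.toFinset = p)

theorem mem_paths {i j : V} {p : Finset V} :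
    p ∈ paths G i j ↔ ∃ q : List V, IndP G (i :: (q ++ [j])) ∧ q.toFinset = p := by
  simp [paths]

theorem paths_card {n : ℕ} (hP : ∀ l : List V, IndP G l → l.length < n) {i j : V} {p : Finset V}
    (hp : p ∈ paths G i j) : p.card ≤ n := by
  obtain ⟨q, h1, rfl⟩ := mem_paths.mp hp
  have := hP _ h1
  have h2 := List.toFinset_card_le q
  simp only [List.length_cons, List.length_append] at this
  omega

/-- `p` meets `X` -/
def Hit (X p : Finset V) : Prop := (p ∩ X).Nonempty

/-- there is a probability measure on the interiors that rarely hits small sets -/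
theorem exists_measure {n a s : ℕ} {δ : ℝ} (hδ : 0 < δ) {i j : V} (hij : i ≠ j)
    (hP : ∀ l : List V, IndP G l → l.length < n) (has : (n : ℝ) * a ≤ δ * s)
    (hsep : ∀ Z : Finset V, ILE G Z s → i ∉ Z → j ∉ Z → Conn G Z i j) :
    ∃ μ : Finset V → ℝ, (∀ p, 0 ≤ μ p) ∧ ∑ p ∈ paths G i j, μ p = 1 ∧
      ∀ X : Finset V, ILE G X a → ∑ p ∈ (paths G i j).filter (Hit X), μ p < δ := by
  let XX : Type := {X : Finset V // ILE G X a}
  let PP : Type := {p : Finset V // p ∈ paths G i j}
  have : Nonempty XX := ⟨⟨∅, ILE_empty a⟩⟩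
  let A : XX → PP → ℝ := fun X p => if Hit X.1 p.1 then 1 else 0
  rcases minimax A δ with ⟨ν, hν, h⟩ | ⟨μ, hμ, h⟩
  · exfalso
    let w : V → ℝ := fun v => ∑ X : XX, ν X * (if v ∈ X.1 then 1 else 0)
    let Z : Finset V := Finset.univ.filter (fun v => v ≠ i ∧ v ≠ j ∧ δ ≤ n * w v)
    have hZ : ILE G Z s := by
      intro S hS hSi
      have h1 : (S.card : ℝ) * δ ≤ ∑ v ∈ S, n * w v := by
        rw [← nsmul_eq_mul, ← Finset.sum_const]
        refine Finset.sum_le_sum fun v hv => ?_
        have := hS hv
        simp only [Z, Finset.mem_filter] at this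
        exact this.2.2.2
      have h2 : ∑ v ∈ S, w v ≤ a := by
        calc ∑ v ∈ S, w v = ∑ X : XX, ∑ v ∈ S, ν X * (if v ∈ X.1 then 1 else 0) :=
              Finset.sum_comm
          _ = ∑ X : XX, ν X * ((S ∩ X.1).card : ℝ) := by
              refine Finset.sum_congr rfl fun X _ => ?_
              rw [← Finset.mul_sum]
              congr 1
              rw [Finset.sum_boole]
              congr 2
          _ ≤ ∑ X : XX, ν X * a := by
              refine Finset.sum_le_sum fun X _ => ?_
              apply mul_le_mul_of_nonneg_left _ (hν.1 X)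
              exact_mod_cast X.2 _ Finset.inter_subset_right
                (indep_subset Finset.inter_subset_left hSi)
          _ = a := by rw [← Finset.sum_mul, hν.2, one_mul]
      have h3 : (S.card : ℝ) * δ ≤ δ * s := by
        calc (S.card : ℝ) * δ ≤ ∑ v ∈ S, n * w v := h1
          _ = n * ∑ v ∈ S, w v := by rw [Finset.mul_sum]
          _ ≤ n * a := mul_le_mul_of_nonneg_left h2 (Nat.cast_nonneg n)
          _ ≤ δ * s := has
      have h4 : (S.card : ℝ) ≤ s := by
        rw [mul_comm] at h3
        exact le_of_mul_le_mul_left h3 hδ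
      exact_mod_cast h4
    have hiZ : i ∉ Z := by simp [Z]
    have hjZ : j ∉ Z := by simp [Z]
    obtain ⟨q, hq, hqZ⟩ := exists_indP (hsep Z hZ hiZ hjZ).symm hij
    have hp : q.toFinset ∈ paths G i j := mem_paths.mpr ⟨q, hq, rfl⟩
    have hle := h ⟨q.toFinset, hp⟩
    have hnd := hq.nodup
    rw [List.nodup_cons] at hnd
    have hw : ∀ v ∈ q.toFinset, (n : ℝ) * w v < δ := by
      intro v hv
      rw [List.mem_toFinset] at hv
      by_contra hcon
      push Not at hcon
      apply hqZ v hv
      simp only [Z, Finset.mem_filter]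
      refine ⟨Finset.mem_univ _, ?_, ?_, hcon⟩
      · rintro rfl
        exact hnd.1 (List.mem_append.mpr (Or.inl hv))
      · rintro rfl
        have := (List.nodup_append.mp hnd.2).2.2
        exact this v hv v (List.mem_singleton.mpr rfl) rfl
    have hupper : ∑ X : XX, ν X * A X ⟨q.toFinset, hp⟩ ≤ ∑ v ∈ q.toFinset, w v := by
      have : ∑ v ∈ q.toFinset, w v = ∑ X : XX, ν X * ((q.toFinset ∩ X.1).card : ℝ) := by
        calc ∑ v ∈ q.toFinset, w v
            = ∑ X : XX, ∑ v ∈ q.toFinset, ν X * (if v ∈ X.1 then 1 else 0) := Finset.sum_comm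
          _ = ∑ X : XX, ν X * ((q.toFinset ∩ X.1).card : ℝ) := by
              refine Finset.sum_congr rfl fun X _ => ?_
              rw [← Finset.mul_sum]
              congr 1
              rw [Finset.sum_boole]
              congr 2
      rw [this]
      refine Finset.sum_le_sum fun X _ => ?_
      apply mul_le_mul_of_nonneg_left _ (hν.1 X)
      by_cases hhit : Hit X.1 q.toFinset
      · simp only [A, if_pos hhit]
        have : 1 ≤ (q.toFinset ∩ X.1).card := Finset.card_pos.mpr hhit
        exact_mod_cast this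
      · simp only [A, if_neg hhit]
        exact Nat.cast_nonneg _
    have hδle : δ ≤ ∑ v ∈ q.toFinset, w v := hle.trans hupper
    have hcard : q.toFinset.card ≤ n := paths_card hP hp
    by_cases hne : q.toFinset.Nonempty
    · have h1 : ∑ v ∈ q.toFinset, (n : ℝ) * w v < ∑ v ∈ q.toFinset, δ :=
        Finset.sum_lt_sum_of_nonempty hne hw
      rw [← Finset.mul_sum, Finset.sum_const, nsmul_eq_mul] at h1
      have h2 : (q.toFinset.card : ℝ) * δ ≤ n * δ :=
        mul_le_mul_of_nonneg_right (by exact_mod_cast hcard) hδ.le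
      have h3 : (n : ℝ) * δ ≤ n * ∑ v ∈ q.toFinset, w v :=
        mul_le_mul_of_nonneg_left hδle (Nat.cast_nonneg n)
      linarith
    · rw [Finset.not_nonempty_iff_eq_empty] at hne
      rw [hne] at hδle
      simp at hδle
      linarith
  · refine ⟨fun p => if hp : p ∈ paths G i j then μ ⟨p, hp⟩ else 0, ?_, ?_, ?_⟩
    · intro p
      dsimp only
      split_ifs with hp
      · exact hμ.1 _
      · exact le_rfl
    · have h1 := hμ.2
      rw [← h1, ← Finset.sum_attach]
      refine Finset.sum_bij (fun p _ => (⟨p.1, p.2⟩ : PP)) (fun _ _ => Finset.mem_univ _) ?_ ?_ ?_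
      · intro a _ b _ hab
        exact Subtype.ext (congrArg Subtype.val hab)
      · intro b _
        exact ⟨⟨b.1, b.2⟩, Finset.mem_attach _ _, rfl⟩
      · intro a _
        simp
    · intro X hX
      have h1 := h ⟨X, hX⟩
      refine lt_of_le_of_lt (le_of_eq ?_) h1
      rw [Finset.sum_filter, ← Finset.sum_attach]
      refine Finset.sum_bij (fun p _ => (⟨p.1, p.2⟩ : PP)) (fun _ _ => Finset.mem_univ _) ?_ ?_ ?_
      · intro a _ b _ hab
        exact Subtype.ext (congrArg Subtype.val hab)
      · intro b _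
        exact ⟨⟨b.1, b.2⟩, Finset.mem_attach _ _, rfl⟩
      · intro a _
        simp only [A, a.2, dif_pos, mul_ite, mul_one, mul_zero]

/-- closed neighbourhood -/
noncomputable def nb (G : SimpleGraph V) (v : V) : Finset V :=
  Finset.univ.filter (fun w => w = v ∨ G.Adj v w)

theorem mem_nb {v w : V} : w ∈ nb G v ↔ w = v ∨ G.Adj v w := by simp [nb]

/-- hub sets have small independence number -/
theorem hub_small {n a M ℓ : ℕ} {c δ : ℝ} (hn : 2 ≤ n)
    (hG : ¬ (completeBipartiteGraph (Fin n) (Fin n)).IsIndContained G)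
    {PS : Finset (Finset V)} {μ : Finset V → ℝ} (hμ : ∀ p, 0 ≤ μ p) (hμ1 : ∑ p ∈ PS, μ p = 1)
    (hδ : ∀ X : Finset V, ILE G X a → ∑ p ∈ PS.filter (Hit X), μ p < δ)
    (hcard : ∀ p ∈ PS, p.card ≤ ℓ) (ha : 2 ^ M * n ≤ a) (hM : (ℓ : ℝ) * n < (c - δ) * M) :
    ILE G (Finset.univ.filter (fun v => c ≤ ∑ p ∈ PS.filter (Hit (nb G v)), μ p)) M := by
  intro S₀ hS₀ hS₀i
  by_contra hcon
  push Not at hcon
  obtain ⟨S, hSS, hSc⟩ := Finset.exists_subset_card_eq hcon.le
  have hS : ∀ v ∈ S, c ≤ ∑ p ∈ PS.filter (Hit (nb G v)), μ p := by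
    intro v hv
    have := hS₀ (hSS hv)
    simpa using this
  have hSi : G.IsIndepSet (S : Set V) := indep_subset hSS hS₀i
  -- vertices dominated by many hubs
  set Y : Finset V := Finset.univ.filter (fun x => n ≤ (S.filter (fun v => x ∈ nb G v)).card)
    with hY
  have hYI : ILE G Y a := by
    have hsub : Y ⊆ (S.powersetCard n).biUnion
        (fun T => Finset.univ.filter (fun x => ∀ v ∈ T, x ∈ nb G v)) := by
      intro x hx
      rw [hY, Finset.mem_filter] at hx
      obtain ⟨T, hT, hTc⟩ := Finset.exists_subset_card_eq hx.2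
      rw [Finset.mem_biUnion]
      refine ⟨T, Finset.mem_powersetCard.mpr ⟨hT.trans (Finset.filter_subset _ _), hTc⟩, ?_⟩
      rw [Finset.mem_filter]
      exact ⟨Finset.mem_univ _, fun v hv => (Finset.mem_filter.mp (hT hv)).2⟩
    have hI : ILE G ((S.powersetCard n).biUnion
        (fun T => Finset.univ.filter (fun x => ∀ v ∈ T, x ∈ nb G v)))
        ((S.powersetCard n).card * n) := by
      apply ILE.biUnion
      intro T hT S2 hS2 hS2i
      rw [Finset.mem_powersetCard] at hT
      by_contra hc2
      push Not at hc2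
      obtain ⟨T2, hT2, hT2c⟩ := Finset.exists_subset_card_eq hc2.le
      have hTi : G.IsIndepSet (T : Set V) := indep_subset hT.1 hSi
      refine no_biclique hG hT.2 hT2c hTi (indep_subset hT2 hS2i) ?_
      intro v hv x hx
      have hxall : ∀ v ∈ T, x ∈ nb G v := by
        have := hS2 (hT2 hx)
        rw [Finset.mem_filter] at this
        exact this.2
      rcases mem_nb.mp (hxall v hv) with h | h
      · exfalso
        have h1 : 1 < T.card := by omega
        obtain ⟨v', hv', hne⟩ := Finset.exists_mem_ne h1 v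
        rcases mem_nb.mp (hxall v' hv') with h' | h'
        · exact hne (h'.symm.trans h)
        · subst h
          exact hTi (by exact_mod_cast hv') (by exact_mod_cast hv) hne h'
      · exact h
    refine (hI.mono hsub).le ?_
    rw [Finset.card_powersetCard, hSc]
    exact (Nat.mul_le_mul_right n (Nat.choose_le_two_pow M n)).trans ha
  have hYδ := hδ Y hYI
  -- double counting
  let J : Finset V → Finset V := fun p => S.filter (fun v => Hit (nb G v) p)
  have hlow : c * M ≤ ∑ p ∈ PS, μ p * (J p).card := by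
    calc c * M = ∑ v ∈ S, c := by rw [Finset.sum_const, nsmul_eq_mul, hSc, mul_comm]
      _ ≤ ∑ v ∈ S, ∑ p ∈ PS.filter (Hit (nb G v)), μ p := Finset.sum_le_sum hS
      _ = ∑ v ∈ S, ∑ p ∈ PS, (if Hit (nb G v) p then μ p else 0) := by
          refine Finset.sum_congr rfl fun v _ => ?_
          rw [Finset.sum_filter]
      _ = ∑ p ∈ PS, ∑ v ∈ S, (if Hit (nb G v) p then μ p else 0) := Finset.sum_comm
      _ = ∑ p ∈ PS, μ p * (J p).card := by
          refine Finset.sum_congr rfl fun p _ => ?_
          rw [← Finset.sum_filter, Finset.sum_const, nsmul_eq_mul, mul_comm]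
  have hJM : ∀ p, ((J p).card : ℝ) ≤ M := by
    intro p
    rw [← hSc]
    exact_mod_cast Finset.card_le_card (Finset.filter_subset _ _)
  have hJ : ∀ p ∈ PS, ¬ Hit Y p → ((J p).card : ℝ) ≤ ℓ * n := by
    intro p hp hpY
    have h1 : J p ⊆ p.biUnion (fun x => S.filter (fun v => x ∈ nb G v)) := by
      intro v hv
      obtain ⟨hvS, x, hx⟩ := Finset.mem_filter.mp hv
      obtain ⟨hxp, hxv⟩ := Finset.mem_inter.mp hx
      exact Finset.mem_biUnion.mpr ⟨x, hxp, Finset.mem_filter.mpr ⟨hvS, hxv⟩⟩
    have h2 : (J p).card ≤ p.card * n := by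
      refine (Finset.card_le_card h1).trans (Finset.card_biUnion_le_card_mul _ _ _ ?_)
      intro x hx
      have hxY : x ∉ Y := fun hxY => hpY ⟨x, Finset.mem_inter.mpr ⟨hx, hxY⟩⟩
      rw [hY, Finset.mem_filter] at hxY
      push Not at hxY
      exact (hxY (Finset.mem_univ _)).le
    have h3 : (J p).card ≤ ℓ * n := h2.trans (Nat.mul_le_mul_right n (hcard p hp))
    exact_mod_cast h3
  have hup : ∑ p ∈ PS, μ p * (J p).card ≤ δ * M + ℓ * n := by
    rw [← Finset.sum_filter_add_sum_filter_not PS (Hit Y)]
    have h1 : ∑ p ∈ PS.filter (Hit Y), μ p * (J p).card ≤ δ * M := by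
      calc ∑ p ∈ PS.filter (Hit Y), μ p * (J p).card
          ≤ ∑ p ∈ PS.filter (Hit Y), μ p * M :=
            Finset.sum_le_sum fun p _ => mul_le_mul_of_nonneg_left (hJM p) (hμ p)
        _ = (∑ p ∈ PS.filter (Hit Y), μ p) * M := by rw [Finset.sum_mul]
        _ ≤ δ * M := mul_le_mul_of_nonneg_right hYδ.le (Nat.cast_nonneg M)
    have h2 : ∑ p ∈ PS.filter (fun p => ¬ Hit Y p), μ p * (J p).card ≤ ℓ * n := by
      calc ∑ p ∈ PS.filter (fun p => ¬ Hit Y p), μ p * (J p).card
          ≤ ∑ p ∈ PS.filter (fun p => ¬ Hit Y p), μ p * (ℓ * n) := by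
            refine Finset.sum_le_sum fun p hp => mul_le_mul_of_nonneg_left ?_ (hμ p)
            rw [Finset.mem_filter] at hp
            exact hJ p hp.1 hp.2
        _ ≤ ∑ p ∈ PS, μ p * (ℓ * n) := by
            apply Finset.sum_le_sum_of_subset_of_nonneg (Finset.filter_subset _ _)
            intro p _ _
            exact mul_nonneg (hμ p) (by positivity)
        _ = ℓ * n := by rw [← Finset.sum_mul, hμ1, one_mul]
    linarith
  nlinarith

end Pool.Agent.MP5f0bce
end

section

/-!
Selection of a sequence of dominated vertices without bad triples, construction of a long induced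
path, and the final theorem.
-/

set_option autoImplicit false
set_option linter.unusedSectionVars false

namespace Pool.Agent.MP5f0bce

open Finset Classical

/-- counting functions whose value at `c` lies in a small set determined by the other values -/
theorem count_update {α : Type} [Fintype α] {L M : ℕ} (c : Fin L)
    (S : (Fin L → α) → Finset α) (hS : ∀ f, (S f).card ≤ M)
    (hdep : ∀ f x, S (Function.update f c x) = S f) :
    (Finset.univ.filter (fun f : Fin L → α => f c ∈ S f)).card * Fintype.card α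
      ≤ M * Fintype.card (Fin L → α) := by
  set E := Finset.univ.filter (fun f : Fin L → α => f c ∈ S f) with hE
  have h1 : (E ×ˢ (Finset.univ : Finset α)).card = E.card * Fintype.card α := by
    rw [Finset.card_product, Finset.card_univ]
  rw [← h1]
  let φ : (Fin L → α) × α → (Fin L → α) := fun z => Function.update z.1 c z.2
  have h2 := Finset.card_le_mul_card_image (f := φ) (E ×ˢ (Finset.univ : Finset α)) M ?_
  · refine h2.trans (Nat.mul_le_mul_left M ?_)
    exact (Finset.card_le_univ _)
  · intro g _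
    -- the fibre over `g` injects into `S g`
    have h3 : ((E ×ˢ (Finset.univ : Finset α)).filter (fun z => φ z = g)).card ≤ (S g).card := by
      apply Finset.card_le_card_of_injOn (fun z => z.1 c)
      · intro z hz
        simp only [Finset.coe_filter, Finset.mem_product, Set.mem_ofPred_eq] at hz
        obtain ⟨⟨hz1, -⟩, hz2⟩ := hz
        rw [hE, Finset.mem_filter] at hz1
        have : S g = S z.1 := by rw [← hz2]; exact hdep _ _
        rw [this]
        exact hz1.2
      · intro z hz z' hz' hzz
        simp only [Finset.coe_filter, Finset.mem_product, Set.mem_ofPred_eq] at hz hz'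
        obtain ⟨-, hz2⟩ := hz
        obtain ⟨-, hz2'⟩ := hz'
        have hx : z.2 = z'.2 := by
          have e1 : φ z c = z.2 := by simp [φ]
          have e2 : φ z' c = z'.2 := by simp [φ]
          rw [← e1, ← e2, hz2, hz2']
        refine Prod.ext ?_ hx
        ext i
        by_cases hi : i = c
        · subst hi; exact hzz
        · have e1 : φ z i = z.1 i := by simp [φ, hi]
          have e2 : φ z' i = z'.1 i := by simp [φ, hi]
          rw [← e1, ← e2, hz2, hz2']
    exact h3.trans (hS g)

/-- choosing a sequence without bad triples -/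
theorem exists_selection {α : Type} [Fintype α] {L M : ℕ} (bad : α → α → Finset α)
    (hbad : ∀ a b, a ≠ b → (bad a b).card ≤ M)
    (hcard : L * L + L * L * L * M < Fintype.card α) :
    ∃ f : Fin L → α, Function.Injective f ∧
      ∀ i j l : Fin L, i ≠ j → l ≠ i → l ≠ j → f l ∉ bad (f i) (f j) := by
  by_contra hcon
  push Not at hcon
  have hpos : 0 < Fintype.card α := by omega
  -- bad events
  let E1 : Fin L × Fin L → Finset (Fin L → α) := fun z =>
    if z.1 ≠ z.2 then Finset.univ.filter (fun f => f z.1 ∈ ({f z.2} : Finset α)) else ∅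
  let E2 : Fin L × Fin L × Fin L → Finset (Fin L → α) := fun z =>
    if z.1 ≠ z.2.1 ∧ z.1 ≠ z.2.2 then Finset.univ.filter
      (fun f => f z.1 ∈ (if f z.2.1 ≠ f z.2.2 then bad (f z.2.1) (f z.2.2) else ∅)) else ∅
  have hE1 : ∀ z, (E1 z).card * Fintype.card α ≤ 1 * Fintype.card (Fin L → α) := by
    intro z
    by_cases hz : z.1 ≠ z.2
    · simp only [E1, if_pos hz]
      refine count_update z.1 (fun f => {f z.2}) (fun f => by simp) ?_
      intro f x
      simp [Function.update_of_ne hz.symm]
    · simp only [E1, if_neg hz, Finset.card_empty, zero_mul]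
      exact Nat.zero_le _
  have hE2 : ∀ z, (E2 z).card * Fintype.card α ≤ M * Fintype.card (Fin L → α) := by
    intro z
    by_cases hz : z.1 ≠ z.2.1 ∧ z.1 ≠ z.2.2
    · simp only [E2, if_pos hz]
      refine count_update z.1
        (fun f => if f z.2.1 ≠ f z.2.2 then bad (f z.2.1) (f z.2.2) else ∅) ?_ ?_
      · intro f
        split_ifs with h
        · exact hbad _ _ h
        · simp
      · intro f x
        simp only [Function.update_of_ne hz.1.symm, Function.update_of_ne hz.2.symm]
    · simp only [E2, if_neg hz, Finset.card_empty, zero_mul]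
      exact Nat.zero_le _
  have hcover : (Finset.univ : Finset (Fin L → α)) ⊆
      (Finset.univ.biUnion E1) ∪ (Finset.univ.biUnion E2) := by
    intro f _
    by_cases hinj : Function.Injective f
    · obtain ⟨i, j, l, hij, hli, hlj, hmem⟩ := hcon f hinj
      apply Finset.mem_union_right
      rw [Finset.mem_biUnion]
      refine ⟨(l, i, j), Finset.mem_univ _, ?_⟩
      have hz : ((l, i, j) : Fin L × Fin L × Fin L).1 ≠ ((l, i, j) : Fin L × Fin L × Fin L).2.1 ∧
        ((l, i, j) : Fin L × Fin L × Fin L).1 ≠ ((l, i, j) : Fin L × Fin L × Fin L).2.2 :=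
        ⟨hli, hlj⟩
      simp only [E2, if_pos hz, Finset.mem_filter]
      refine ⟨Finset.mem_univ _, ?_⟩
      have hfij : f i ≠ f j := fun h => hij (hinj h)
      rw [if_pos hfij]
      exact hmem
    · unfold Function.Injective at hinj
      push Not at hinj
      obtain ⟨i, j, hfij, hij⟩ := hinj
      apply Finset.mem_union_left
      rw [Finset.mem_biUnion]
      refine ⟨(i, j), Finset.mem_univ _, ?_⟩
      have hz : ((i, j) : Fin L × Fin L).1 ≠ ((i, j) : Fin L × Fin L).2 := hij
      simp only [E1, if_pos hz, Finset.mem_filter]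
      exact ⟨Finset.mem_univ _, by simpa using hfij⟩
  have hfun : 0 < Fintype.card (Fin L → α) := by
    have : Nonempty α := Fintype.card_pos_iff.mp hpos
    exact Fintype.card_pos
  have h1 : Fintype.card (Fin L → α) ≤ (∑ z, (E1 z).card) + ∑ z, (E2 z).card := by
    rw [← Finset.card_univ]
    refine (Finset.card_le_card hcover).trans ((Finset.card_union_le _ _).trans ?_)
    exact add_le_add Finset.card_biUnion_le Finset.card_biUnion_le
  have h2 : (∑ z, (E1 z).card) * Fintype.card α ≤ L * L * Fintype.card (Fin L → α) := by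
    rw [Finset.sum_mul]
    refine (Finset.sum_le_sum fun z _ => hE1 z).trans ?_
    rw [Finset.sum_const, Finset.card_univ, Fintype.card_prod, Fintype.card_fin, smul_eq_mul,
      one_mul]
  have h3 : (∑ z, (E2 z).card) * Fintype.card α
      ≤ L * L * L * M * Fintype.card (Fin L → α) := by
    rw [Finset.sum_mul]
    refine (Finset.sum_le_sum fun z _ => hE2 z).trans ?_
    rw [Finset.sum_const, Finset.card_univ, Fintype.card_prod, Fintype.card_prod,
      Fintype.card_fin, smul_eq_mul]
    apply le_of_eq; ring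
  have h4 : Fintype.card (Fin L → α) * Fintype.card α
      ≤ (L * L + L * L * L * M) * Fintype.card (Fin L → α) := by
    calc Fintype.card (Fin L → α) * Fintype.card α
        ≤ ((∑ z, (E1 z).card) + ∑ z, (E2 z).card) * Fintype.card α :=
          Nat.mul_le_mul_right _ h1
      _ = (∑ z, (E1 z).card) * Fintype.card α + (∑ z, (E2 z).card) * Fintype.card α := by ring
      _ ≤ L * L * Fintype.card (Fin L → α) + L * L * L * M * Fintype.card (Fin L → α) :=
          add_le_add h2 h3
      _ = _ := by ring
  rw [mul_comm (Fintype.card (Fin L → α))] at h4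
  have h5 := Nat.le_of_mul_le_mul_right h4 hfun
  omega

variable {V : Type} [Fintype V] {G : SimpleGraph V}

/-- union bound -/
theorem avoid {PS : Finset (Finset V)} {μ : Finset V → ℝ} (hμ : ∀ p, 0 ≤ μ p)
    (hμ1 : ∑ p ∈ PS, μ p = 1) (T T' : Finset (Finset V)) {c δ : ℝ}
    (hT : ∀ X ∈ T, ∑ p ∈ PS.filter (Hit X), μ p ≤ c)
    (hT' : ∀ X ∈ T', ∑ p ∈ PS.filter (Hit X), μ p ≤ δ)
    (hsum : T.card * c + T'.card * δ < 1) :
    ∃ p ∈ PS, (∀ X ∈ T, ¬ Hit X p) ∧ ∀ X ∈ T', ¬ Hit X p := by
  by_contra hcon
  push Not at hcon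
  have hstep : ∀ (T : Finset (Finset V)) (c : ℝ), (∀ X ∈ T, ∑ p ∈ PS.filter (Hit X), μ p ≤ c) →
      ∑ p ∈ PS, μ p * ∑ X ∈ T, (if Hit X p then (1 : ℝ) else 0) ≤ T.card * c := by
    intro T c hT
    calc ∑ p ∈ PS, μ p * ∑ X ∈ T, (if Hit X p then (1 : ℝ) else 0)
        = ∑ X ∈ T, ∑ p ∈ PS, (if Hit X p then μ p else 0) := by
          rw [Finset.sum_comm]
          refine Finset.sum_congr rfl fun p _ => ?_
          rw [Finset.mul_sum]
          refine Finset.sum_congr rfl fun X _ => ?_
          split_ifs <;> simp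
      _ = ∑ X ∈ T, ∑ p ∈ PS.filter (Hit X), μ p := by
          refine Finset.sum_congr rfl fun X _ => ?_
          rw [Finset.sum_filter]
      _ ≤ ∑ X ∈ T, c := Finset.sum_le_sum hT
      _ = T.card * c := by rw [Finset.sum_const, nsmul_eq_mul]
  have h1 := hstep T c hT
  have h2 := hstep T' δ hT'
  have h3 : (1 : ℝ) ≤ ∑ p ∈ PS, μ p * ((∑ X ∈ T, (if Hit X p then (1 : ℝ) else 0)) +
      ∑ X ∈ T', (if Hit X p then (1 : ℝ) else 0)) := by
    refine hμ1.symm.le.trans (Finset.sum_le_sum fun p hp => ?_)
    have hnn : ∀ (T : Finset (Finset V)), (0 : ℝ) ≤ ∑ X ∈ T, (if Hit X p then (1 : ℝ) else 0) := by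
      intro T
      refine Finset.sum_nonneg fun X _ => ?_
      split_ifs <;> norm_num
    have hone : ∀ (T : Finset (Finset V)), (∃ X ∈ T, Hit X p) →
        (1 : ℝ) ≤ ∑ X ∈ T, (if Hit X p then (1 : ℝ) else 0) := by
      rintro T ⟨X, hX, hXp⟩
      have : (if Hit X p then (1 : ℝ) else 0) ≤ ∑ X ∈ T, (if Hit X p then (1 : ℝ) else 0) := by
        refine Finset.single_le_sum (f := fun X => if Hit X p then (1 : ℝ) else 0) ?_ hX
        intro Y _
        split_ifs <;> norm_num
      rwa [if_pos hXp] at this
    have h4 : (1 : ℝ) ≤ (∑ X ∈ T, (if Hit X p then (1 : ℝ) else 0)) +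
      ∑ X ∈ T', (if Hit X p then (1 : ℝ) else 0) := by
      by_cases hex : ∃ X ∈ T, Hit X p
      · linarith [hone T hex, hnn T']
      · push Not at hex
        obtain ⟨X, hX, hXp⟩ := hcon p hp hex
        linarith [hone T' ⟨X, hX, hXp⟩, hnn T]
    nlinarith [hμ p]
  have h5 : ∑ p ∈ PS, μ p * ((∑ X ∈ T, (if Hit X p then (1 : ℝ) else 0)) +
      ∑ X ∈ T', (if Hit X p then (1 : ℝ) else 0)) =
      (∑ p ∈ PS, μ p * ∑ X ∈ T, (if Hit X p then (1 : ℝ) else 0)) +
      ∑ p ∈ PS, μ p * ∑ X ∈ T', (if Hit X p then (1 : ℝ) else 0) := by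
    rw [← Finset.sum_add_distrib]
    refine Finset.sum_congr rfl fun p _ => ?_
    ring
  linarith

/-- the greedy construction of a long induced path -/
theorem build {n a : ℕ} {c δ : ℝ} (hc : 0 ≤ c) (hδ0 : 0 ≤ δ)
    (hP : ∀ l : List V, IndP G l → l.length < n)
    (g : ℕ → V) (μ : ℕ → Finset V → ℝ) (hμ0 : ∀ t < n, ∀ p, 0 ≤ μ t p)
    (hμ1 : ∀ t < n, ∑ p ∈ paths G (g t) (g (t + 1)), μ t p = 1)
    (hμδ : ∀ t < n, ∀ X : Finset V, ILE G X a →
      ∑ p ∈ (paths G (g t) (g (t + 1))).filter (Hit X), μ t p < δ)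
    (hub : ℕ → Finset V) (hhub : ∀ t < n, ILE G (hub t) a)
    (hhubc : ∀ t < n, ∀ v, v ∉ hub t →
      ∑ p ∈ (paths G (g t) (g (t + 1))).filter (Hit (nb G v)), μ t p < c)
    (hg : ∀ i ≤ n, ∀ j ≤ n, i ≠ j → g i ≠ g j ∧ ¬ G.Adj (g i) (g j))
    (hgh : ∀ t < n, ∀ l ≤ n, l ≠ t → l ≠ t + 1 → g l ∉ hub t)
    (hsum : 2 * n * c + n * δ < 1) : False := by
  have state : ∀ t : ℕ, t ≤ n → ∃ l : List V, IndP G (l ++ [g t]) ∧ t ≤ l.length ∧
      ∀ z ∈ l, (∀ j, t ≤ j → j < n → z ∉ hub j) ∧
        ∀ l', t < l' → l' ≤ n → z ≠ g l' ∧ ¬ G.Adj z (g l') := by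
    intro t
    induction t with
    | zero => intro _; exact ⟨[], trivial, by simp, by simp⟩
    | succ t ih =>
      intro ht
      have htn : t < n := ht
      obtain ⟨l, a1, a2, a3⟩ := ih (by omega)
      have hlen : l.length + 1 < n := by
        have := hP _ a1
        simpa using this
      let T₁ : Finset (Finset V) := l.toFinset.image (nb G)
      let T₂ : Finset (Finset V) :=
        ((Finset.range (n + 1)).filter (fun x => t + 1 < x)).image (fun l' => nb G (g l'))
      let T₃ : Finset (Finset V) := ((Finset.range n).filter (fun x => t < x)).image hub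
      have c1 : T₁.card ≤ l.length :=
        Finset.card_image_le.trans (List.toFinset_card_le l)
      have c2 : T₂.card ≤ n + 1 := by
        refine Finset.card_image_le.trans ((Finset.card_filter_le _ _).trans ?_)
        simp
      have c3 : T₃.card ≤ n := by
        refine Finset.card_image_le.trans ((Finset.card_filter_le _ _).trans ?_)
        simp
      have c12 : (T₁ ∪ T₂).card ≤ 2 * n := by
        have := Finset.card_union_le T₁ T₂
        omega
      obtain ⟨p, hp, hp1, hp2⟩ := avoid (hμ0 t htn) (hμ1 t htn) (T₁ ∪ T₂) T₃ (c := c) (δ := δ)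
        (by
          intro X hX
          rcases Finset.mem_union.mp hX with hX | hX
          · obtain ⟨z, hz, rfl⟩ := Finset.mem_image.mp hX
            rw [List.mem_toFinset] at hz
            exact (hhubc t htn z ((a3 z hz).1 t le_rfl htn)).le
          · obtain ⟨l', hl', rfl⟩ := Finset.mem_image.mp hX
            rw [Finset.mem_filter, Finset.mem_range] at hl'
            exact (hhubc t htn (g l') (hgh t htn l' (by omega) (by omega) (by omega))).le)
        (by
          intro X hX
          obtain ⟨j, hj, rfl⟩ := Finset.mem_image.mp hX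
          rw [Finset.mem_filter, Finset.mem_range] at hj
          exact (hμδ t htn (hub j) (hhub j hj.1)).le)
        (by
          have d1 : ((T₁ ∪ T₂).card : ℝ) * c ≤ 2 * n * c := by
            apply mul_le_mul_of_nonneg_right _ hc
            exact_mod_cast c12
          have d2 : (T₃.card : ℝ) * δ ≤ n * δ := by
            apply mul_le_mul_of_nonneg_right _ hδ0
            exact_mod_cast c3
          linarith)
      obtain ⟨q, hq, hqp⟩ := mem_paths.mp hp
      have hmem : ∀ x ∈ q, x ∈ p := by
        intro x hx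
        rw [← hqp, List.mem_toFinset]
        exact hx
      have hnb : ∀ v, ¬ Hit (nb G v) p → ∀ x ∈ q, x ≠ v ∧ ¬ G.Adj v x := by
        intro v hv x hx
        by_contra hcon
        apply hv
        refine ⟨x, Finset.mem_inter.mpr ⟨hmem x hx, mem_nb.mpr ?_⟩⟩
        by_cases hxv : x = v
        · exact Or.inl hxv
        · right
          by_contra hadj
          exact hcon ⟨hxv, hadj⟩
      have hlq : ∀ z ∈ l, ∀ x ∈ q, x ≠ z ∧ ¬ G.Adj z x := by
        intro z hz
        apply hnb
        apply hp1
        apply Finset.mem_union_left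
        exact Finset.mem_image.mpr ⟨z, List.mem_toFinset.mpr hz, rfl⟩
      have hgq : ∀ l', t + 1 < l' → l' ≤ n → ∀ x ∈ q, x ≠ g l' ∧ ¬ G.Adj (g l') x := by
        intro l' h1 h2
        apply hnb
        apply hp1
        apply Finset.mem_union_right
        refine Finset.mem_image.mpr ⟨l', ?_, rfl⟩
        rw [Finset.mem_filter, Finset.mem_range]
        omega
      refine ⟨l ++ g t :: q, ?_, ?_, ?_⟩
      · have : (l ++ g t :: q) ++ [g (t + 1)] = l ++ g t :: (q ++ [g (t + 1)]) := by simp
        rw [this]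
        refine IndP.append a1 hq ?_
        intro z hz x hx
        rcases List.mem_append.mp hx with hx | hx
        · have := hlq z hz x hx
          exact ⟨this.2, this.1.symm⟩
        · rw [List.mem_singleton] at hx
          subst hx
          have := (a3 z hz).2 (t + 1) (by omega) (by omega)
          exact ⟨this.2, this.1⟩
      · simp only [List.length_append, List.length_cons]
        omega
      · intro z hz
        rcases List.mem_append.mp hz with hz | hz
        · exact ⟨fun j h1 h2 => (a3 z hz).1 j (by omega) h2,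
            fun l' h1 h2 => (a3 z hz).2 l' (by omega) h2⟩
        · rcases List.mem_cons.mp hz with rfl | hz
          · exact ⟨fun j h1 h2 => hgh j h2 t (by omega) (by omega) (by omega),
              fun l' h1 h2 => hg t (by omega) l' h2 (by omega)⟩
          · constructor
            · intro j h1 h2 hzj
              apply hp2 (hub j)
              · refine Finset.mem_image.mpr ⟨j, ?_, rfl⟩
                rw [Finset.mem_filter, Finset.mem_range]
                omega
              · exact ⟨z, Finset.mem_inter.mpr ⟨hmem z hz, hzj⟩⟩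
            · intro l' h1 h2
              have := hgq l' h1 h2 z hz
              exact ⟨this.1, fun h => this.2 h.symm⟩
  obtain ⟨l, a1, a2, -⟩ := state n le_rfl
  have := hP _ a1
  simp only [List.length_append, List.length_singleton] at this
  omega

theorem main_bound (n : ℕ) (hn : 2 ≤ n) : ∃ K : ℕ, ∀ (V : Type) [Fintype V] (G : SimpleGraph V),
    ¬ (SimpleGraph.pathGraph n).IsIndContained G →
    ¬ (completeBipartiteGraph (Fin n) (Fin n)).IsIndContained G →
    HasTD G K Finset.univ ∅ := by
  obtain ⟨M, hM⟩ : ∃ M : ℕ, M = 8 * n ^ 3 + 1 := ⟨_, rfl⟩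
  obtain ⟨a, ha⟩ : ∃ a : ℕ, a = 2 ^ M * n := ⟨_, rfl⟩
  obtain ⟨s, hs⟩ : ∃ s : ℕ, s = 8 * n * n * a := ⟨_, rfl⟩
  obtain ⟨m, hm⟩ : ∃ m : ℕ, m = (n + 1) * (n + 1) + (n + 1) * (n + 1) * (n + 1) * M := ⟨_, rfl⟩
  obtain ⟨k, hk⟩ : ∃ k : ℕ, k = m + n * s := ⟨_, rfl⟩
  refine ⟨4 * k + 1, ?_⟩
  intro V _ G hPG hKG
  have hP : ∀ l : List V, IndP G l → l.length < n := fun l hl => indP_length_lt hPG hl
  by_contra hTD
  have hsepn : ¬ ∀ W : Finset V, ILE G W (3 * k + 1) → ∃ X : Finset V, ILE G X k ∧
      ∀ v, v ∉ X → ILE G (W ∩ comp G X v) (2 * k) := fun hsep =>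
    hTD (hasTD_of_separators G k hsep _ Finset.univ ∅ (Finset.empty_subset _) (ILE_empty _) le_rfl)
  push Not at hsepn
  obtain ⟨W, hW, hWX⟩ := hsepn
  have hbeta : ∀ X : Finset V, ILE G X k → (beta G W k X).Nonempty := by
    intro X hX
    obtain ⟨v, hv1, hv2⟩ := hWX X hX
    exact ⟨v, mem_beta.mpr ⟨hv1, hv2⟩⟩
  have hdom : ¬ ILE G (dom G W k s) m := fun hd => dom_large hW hbeta hP hd hk.ge
  unfold ILE at hdom
  push Not at hdom
  obtain ⟨S, hS, hSi, hSc⟩ := hdom
  have hnR : (0 : ℝ) < n := by
    have : 0 < n := by omega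
    exact_mod_cast this
  set c : ℝ := 1 / (4 * n) with hc
  set δ : ℝ := 1 / (8 * n) with hδ
  have hc0 : 0 < c := by positivity
  have hδ0 : 0 < δ := by positivity
  have hindS : ∀ i ∈ S, ∀ j ∈ S, ¬ G.Adj i j := by
    intro i hi j hj hij
    exact hSi (by exact_mod_cast hi) (by exact_mod_cast hj) hij.ne hij
  have hμex : ∀ i j : {x // x ∈ S}, i ≠ j → ∃ μ : Finset V → ℝ, (∀ p, 0 ≤ μ p) ∧
      ∑ p ∈ paths G i.1 j.1, μ p = 1 ∧
      ∀ X : Finset V, ILE G X a → ∑ p ∈ (paths G i.1 j.1).filter (Hit X), μ p < δ := by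
    intro i j hij
    refine exists_measure (n := n) (s := s) hδ0 (fun h => hij (Subtype.ext h)) hP ?_ ?_
    · rw [hδ, hs]
      push_cast
      field_simp
      exact le_rfl
    · intro Z hZ hi hj
      exact dom_conn hW (hS i.2) (hS j.2) hZ hi hj
  choose! μ hμ using hμex
  let hub : {x // x ∈ S} → {x // x ∈ S} → Finset V := fun i j =>
    Finset.univ.filter (fun v => c ≤ ∑ p ∈ (paths G i.1 j.1).filter (Hit (nb G v)), μ i j p)
  have hhub : ∀ i j, i ≠ j → ILE G (hub i j) M := by
    intro i j hij
    obtain ⟨h1, h2, h3⟩ := hμ i j hij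
    refine hub_small (n := n) (a := a) (M := M) (ℓ := n) (c := c) (δ := δ) hn hKG h1 h2 h3
      (fun p hp => paths_card hP hp) ha.ge ?_
    have hcd : c - δ = 1 / (8 * n) := by
      rw [hc, hδ]; field_simp; norm_num
    rw [hcd, hM]
    push_cast
    rw [div_mul_eq_mul_div, lt_div_iff₀ (by positivity)]
    ring_nf
    linarith
  let bad : {x // x ∈ S} → {x // x ∈ S} → Finset {x // x ∈ S} := fun i j =>
    Finset.univ.filter (fun x => x.1 ∈ hub i j)
  have hbad : ∀ i j, i ≠ j → (bad i j).card ≤ M := by
    intro i j hij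
    rw [← Finset.card_map (Function.Embedding.subtype (fun x => x ∈ S))]
    apply hhub i j hij
    · intro x hx
      rw [Finset.mem_map] at hx
      obtain ⟨y, hy, rfl⟩ := hx
      exact (Finset.mem_filter.mp hy).2
    · refine indep_subset ?_ hSi
      intro x hx
      rw [Finset.mem_map] at hx
      obtain ⟨y, hy, rfl⟩ := hx
      exact y.2
  obtain ⟨f, hf1, hf2⟩ := exists_selection (L := n + 1) (M := M) bad hbad (by
    rw [Fintype.card_coe, ← hm]
    exact hSc)
  let e : ℕ → Fin (n + 1) := fun t => Fin.ofNat (n + 1) t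
  have he : ∀ i ≤ n, ∀ j ≤ n, i ≠ j → e i ≠ e j := by
    intro i hi j hj hij h
    have := congrArg Fin.val h
    simp only [e, Fin.val_ofNat] at this
    rw [Nat.mod_eq_of_lt (by omega), Nat.mod_eq_of_lt (by omega)] at this
    exact hij this
  have hfe : ∀ i ≤ n, ∀ j ≤ n, i ≠ j → f (e i) ≠ f (e j) := fun i hi j hj hij h =>
    he i hi j hj hij (hf1 h)
  refine build (n := n) (a := a) (c := c) (δ := δ) (G := G) hc0.le hδ0.le hP
    (fun t => (f (e t)).1) (fun t => μ (f (e t)) (f (e (t + 1)))) ?_ ?_ ?_
    (fun t => hub (f (e t)) (f (e (t + 1)))) ?_ ?_ ?_ ?_ ?_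
  · intro t ht
    exact (hμ _ _ (hfe t (by omega) (t + 1) (by omega) (by omega))).1
  · intro t ht
    exact (hμ _ _ (hfe t (by omega) (t + 1) (by omega) (by omega))).2.1
  · intro t ht
    exact (hμ _ _ (hfe t (by omega) (t + 1) (by omega) (by omega))).2.2
  · intro t ht
    refine (hhub _ _ (hfe t (by omega) (t + 1) (by omega) (by omega))).le ?_
    rw [ha]
    calc M ≤ 2 ^ M := Nat.lt_two_pow_self.le
      _ ≤ 2 ^ M * n := Nat.le_mul_of_pos_right _ (by omega)
  · intro t ht v hv
    simp only [hub, Finset.mem_filter, Finset.mem_univ, true_and, not_le] at hv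
    exact hv
  · intro i hi j hj hij
    refine ⟨fun h => hfe i hi j hj hij (Subtype.ext h), hindS _ (f (e i)).2 _ (f (e j)).2⟩
  · intro t ht l hl h1 h2 hmem
    apply hf2 (e t) (e (t + 1)) (e l) (he t (by omega) (t + 1) (by omega) (by omega))
      (he l hl t (by omega) h1) (he l hl (t + 1) (by omega) h2)
    exact Finset.mem_filter.mpr ⟨Finset.mem_univ _, hmem⟩
  · rw [hc, hδ]
    have h1 : 2 * (n : ℝ) * (1 / (4 * n)) = 1 / 2 := by field_simp; norm_num
    have h2 : (n : ℝ) * (1 / (8 * n)) = 1 / 8 := by field_simp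
    rw [h1, h2]
    norm_num

end Pool.Agent.MP5f0bce
end
end
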